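import Pool.Agent.W_7d29a1_L.LsDefs

/-!
L*: algebra of the tilted luck `T` and of the box maximum `Mh`.
-/

namespace Pool.Agent.W_7d29a1_L

open MeasureTheory ProbabilityTheory Filter Topology
open Pool.Agent.W_7d29a1_F

variable {μ : Measure ℝ} {s v h : ℝ}

private theorem LsA1_W (η : Env) (a : Pt) (n : ℕ) (y : ℤ) :
    W μ (s + h) η a n y * Real.exp (n * kap μ s v h) = W μ s η a n y * Real.exp (h * ((y : ℝ) - v * n)) := by
  unfold W WR kap
  have h1 : Real.exp ((s + h) * (y : ℝ) - n * lam μ (s + h)) * Real.exp (n * (lam μ (s + h) - lam μ s - h * v)) =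
      Real.exp (s * (y : ℝ) - n * lam μ s) * Real.exp (h * ((y : ℝ) - v * n)) := by
    rw [← Real.exp_add, ← Real.exp_add]
    congr 1
    ring
  calc Real.exp ((s + h) * (y : ℝ) - n * lam μ (s + h)) * Zr Set.univ η a n y *
        Real.exp (n * (lam μ (s + h) - lam μ s - h * v))
      = (Real.exp ((s + h) * (y : ℝ) - n * lam μ (s + h)) * Real.exp (n * (lam μ (s + h) - lam μ s - h * v))) *
        Zr Set.univ η a n y := by ring
    _ = _ := by rw [h1]; ring

/-- PROOF. `exp_V` at the tilt `s + h`; `W μ (s + h) η a n y * exp (n kap) = W μ s η a n y * exp (h (y - v n))`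
(unfold `W`, `WR`, `kap`; exponents). -/
theorem exp_T (η : Env) (a : Pt) (n : ℕ) :
    Real.exp (T μ s v h η a n) =
      ∑ y ∈ Finset.Icc (0 : ℤ) n, W μ s η a n y * Real.exp (h * ((y : ℝ) - v * n)) := by
  unfold T
  rw [Real.exp_add, exp_V]
  unfold WS
  rw [Finset.sum_mul]
  exact Finset.sum_congr rfl fun y _ => LsA1_W η a n y

theorem T_zero (η : Env) (a : Pt) : T μ s v h η a 0 = 0 := by
  unfold T
  rw [V_zero]
  simp

theorem T_sh (η : Env) (a c : Pt) (n : ℕ) : T μ s v h (sh c η) a n = T μ s v h η (a + c) n := by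
  unfold T
  rw [V_sh]

/-- PROOF. `exp_V_add` at the tilt `s + h`, and the identity of `exp_T` for `W`. -/
theorem exp_T_add (η : Env) (a : Pt) (m k : ℕ) :
    Real.exp (T μ s v h η a (m + k)) = ∑ y ∈ Finset.Icc (0 : ℤ) m,
      (W μ s η a m y * Real.exp (h * ((y : ℝ) - v * m))) * Real.exp (T μ s v h η (a.1 + m, a.2 + y) k) := by
  unfold T
  rw [Real.exp_add, exp_V_add, Finset.sum_mul]
  refine Finset.sum_congr rfl fun y _ => ?_
  rw [← LsA1_W (μ := μ) (s := s) (v := v) (h := h) η a m y, Real.exp_add]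
  have h1 : Real.exp (((m + k : ℕ) : ℝ) * kap μ s v h) =
      Real.exp ((m : ℝ) * kap μ s v h) * Real.exp ((k : ℝ) * kap μ s v h) := by
    rw [← Real.exp_add]
    congr 1
    push_cast
    ring
  rw [h1]
  ring

/-- One step: the tilt costs at most `1`. PROOF. `exp_T_add` with `k = 1`; `exp (T .. 1) ≤ exp (V μ s .. 1) * exp 1` by
`exp_T`, `exp_V` (`h (y - v) ≤ |h| ≤ 1` for `y ∈ {0, 1}`, `0 ≤ v ≤ 1`). -/
theorem T_step_le (hv0 : 0 ≤ v) (hv1 : v ≤ 1) (hh : |h| ≤ 1) (η : Env) (a : Pt) (i : ℕ) {c : ℝ}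
    (hc : ∀ k : ℤ, 0 ≤ k → k ≤ i → V μ s η (a.1 + i, a.2 + k) 1 ≤ c) :
    T μ s v h η a (i + 1) ≤ T μ s v h η a i + (c + 1) := by
  have hstep : ∀ b : Pt, Real.exp (T μ s v h η b 1) ≤ Real.exp (V μ s η b 1 + 1) := by
    intro b
    rw [exp_T, Real.exp_add, exp_V]
    unfold WS
    rw [Finset.sum_mul]
    refine Finset.sum_le_sum fun y hy => ?_
    rw [Finset.mem_Icc] at hy
    refine mul_le_mul_of_nonneg_left (Real.exp_le_exp.2 ?_) (W_nonneg _ _ _ _)
    have hy0 : (0 : ℝ) ≤ (y : ℝ) := by exact_mod_cast hy.1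
    have hy1 : (y : ℝ) ≤ 1 := by exact_mod_cast hy.2
    have h1 : |(y : ℝ) - v * ((1 : ℕ) : ℝ)| ≤ 1 := by
      push_cast
      rw [abs_le]
      constructor <;> linarith
    calc h * ((y : ℝ) - v * ((1 : ℕ) : ℝ)) ≤ |h * ((y : ℝ) - v * ((1 : ℕ) : ℝ))| := le_abs_self _
      _ = |h| * |(y : ℝ) - v * ((1 : ℕ) : ℝ)| := abs_mul _ _
      _ ≤ 1 * 1 := mul_le_mul hh h1 (abs_nonneg _) zero_le_one
      _ = 1 := one_mul 1
  have h1 : Real.exp (T μ s v h η a (i + 1)) ≤ Real.exp (T μ s v h η a i + (c + 1)) := by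
    rw [exp_T_add, Real.exp_add (T μ s v h η a i), exp_T, Finset.sum_mul]
    refine Finset.sum_le_sum fun k hk => ?_
    rw [Finset.mem_Icc] at hk
    refine mul_le_mul_of_nonneg_left ?_ (mul_nonneg (W_nonneg _ _ _ _) (Real.exp_nonneg _))
    refine (hstep _).trans (Real.exp_le_exp.2 ?_)
    have := hc k hk.1 hk.2
    linarith
  exact Real.exp_le_exp.1 h1

theorem Sub_T (a : Pt) (n : ℕ) : Sub fun η => T μ s v h η a n := by
  unfold T
  exact (Sub_V a n).add (Sub.const _)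

/-- PROOF. `V_dep_rows`. -/
theorem T_dep_rows (a : Pt) (n : ℕ) : DependsOn (fun η : Env => T μ s v h η a n) (rows a.1 (a.1 + n)) := by
  intro η η' hη
  show V μ (s + h) η a n + n * kap μ s v h = V μ (s + h) η' a n + n * kap μ s v h
  have h1 : V μ (s + h) η a n = V μ (s + h) η' a n := V_dep_rows (μ := μ) (s := s + h) a n hη
  rw [h1]

private theorem LsA1_fold {ι : Type*} (I : Finset ι) {f : ι → Env → ℝ} (hf : ∀ i ∈ I, Sub (f i)) :
    Sub fun η => I.fold max 0 fun i => f i η := by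
  classical
  induction I using Finset.induction_on with
  | empty => simpa using Sub.const 0
  | insert a t ha ih =>
    have h1 := (hf a (Finset.mem_insert_self _ _)).max (ih fun i hi => hf i (Finset.mem_insert_of_mem hi))
    simpa [Finset.fold_insert ha] using h1

variable {w z : ℝ} {n : ℕ}

theorem Mh_nonneg (η : Env) : 0 ≤ Mh μ s v h w z n η := by
  unfold Mh
  rw [Finset.le_fold_max]
  exact Or.inl le_rfl

theorem le_Mh (η : Env) {q : (ℕ × ℤ) × ℕ} (hq : q ∈ Bx v w z n) :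
    T μ s v h η ((q.1.1 : ℤ), q.1.2) q.2 ≤ Mh μ s v h w z n η := by
  unfold Mh
  rw [Finset.le_fold_max]
  exact Or.inr ⟨q, hq, le_rfl⟩

theorem Mh_le (η : Env) {c : ℝ} (hc : 0 ≤ c)
    (H : ∀ q ∈ Bx v w z n, T μ s v h η ((q.1.1 : ℤ), q.1.2) q.2 ≤ c) : Mh μ s v h w z n η ≤ c := by
  unfold Mh
  rw [Finset.fold_max_le]
  exact ⟨hc, H⟩

/-- PROOF. Induction on the finset: `Sub.max`, `Sub.const`. -/
theorem Sub_Mh : Sub fun η => Mh μ s v h w z n η := by
  unfold Mh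
  exact LsA1_fold _ fun q _ => Sub_T _ _

/-- PROOF. `T_dep_rows` and `mem_Bx`. -/
theorem Mh_dep (hv0 : 0 ≤ v) (hv1 : v ≤ 1) : DependsOn (fun η : Env => Mh μ s v h w z n η) (rows 0 n) := by
  intro η η' hη
  show Mh μ s v h w z n η = Mh μ s v h w z n η'
  unfold Mh
  refine Finset.fold_congr fun q hq => ?_
  rw [mem_Bx hv0 hv1] at hq
  refine T_dep_rows (μ := μ) (s := s) (v := v) (h := h) _ _ fun p hp => hη p ?_
  refine rows_mono ?_ ?_ hp
  · show (0 : ℤ) ≤ (q.1.1 : ℤ)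
    omega
  · show ((q.1.1 : ℤ)) + (q.2 : ℤ) ≤ n
    have := hq.1
    omega

theorem Ov_nonneg (t : ℤ) (η : Env) : 0 ≤ Ov μ s w z n t η := by
  unfold Ov
  rw [Finset.le_fold_max]
  exact Or.inl le_rfl

theorem le_Ov (t : ℤ) (η : Env) {x : ℤ} (h1 : ⌊z⌋ ≤ x) (h2 : x ≤ ⌈z + w⌉ + n) :
    V μ s η (t, x) 1 ≤ Ov μ s w z n t η := by
  unfold Ov
  rw [Finset.le_fold_max]
  exact Or.inr ⟨x, Finset.mem_Icc.2 ⟨h1, h2⟩, le_rfl⟩

theorem Sub_Ov (t : ℤ) : Sub fun η => Ov μ s w z n t η := by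
  unfold Ov
  exact LsA1_fold _ fun q _ => Sub_V _ _

theorem Ov_dep (t : ℤ) : DependsOn (fun η : Env => Ov μ s w z n t η) (rows t (t + 1)) := by
  intro η η' hη
  show Ov μ s w z n t η = Ov μ s w z n t η'
  unfold Ov
  refine Finset.fold_congr fun x _ => ?_
  refine V_dep_rows (μ := μ) (s := s) (t, x) 1 fun p hp => hη p ?_
  simpa using hp

variable [IsProbabilityMeasure μ]

/-- PROOF. As `integral_exp_Mx_sh` in `W_7d29a1_F/LuckA.lean`. -/
theorem integral_exp_Mh_sh (θ : ℝ) (a : Pt) :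
    ∫ η, Real.exp (θ * Mh μ s v h w z n (sh a η)) ∂(law μ) = ∫ η, Real.exp (θ * Mh μ s v h w z n η) ∂(law μ) := by
  have h1 := (mp_sh (μ := μ) a).map_eq
  have hm : Measurable fun η : Env => Real.exp (θ * Mh μ s v h w z n η) :=
    Real.measurable_exp.comp (Sub_Mh.1.const_mul θ)
  conv_rhs => rw [← h1]
  rw [integral_map (mp_sh (μ := μ) a).measurable.aemeasurable hm.aestronglyMeasurable]

end Pool.Agent.W_7d29a1_L
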