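import Pool.Agent.W_7d29a1_F.LuckA

/-!
LEMMA L*: exponential moments of the luck in a frame (direction `v`, width `w`, tilts `h0 < h < h1`), uniformly in
`v`. Definitions, and the interface between THEOREM A (exploitation: `HitBd`) and THEOREM B (restart).

THEOREM A (one tilt `s'`): `HitV μ s' v w n A` from upper bounds of the mean costs `∫ max (X μ s' · 0 m y) 0`.
THEOREM B: from `HitV` at `s + h0` and `s + h1`, `c1 E ≤ (h1 - h) w`, `c1 E ≤ (h - h0) w`, `K (1 + log n) ≤ E`: there is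
`Y ≤ C' E` with `∫ exp (Mh h z / Y) ≤ 4 e` for all real `z`.
-/

namespace Pool.Agent.W_7d29a1_L

open MeasureTheory ProbabilityTheory Filter Topology
open Pool.Agent.W_7d29a1_F

noncomputable section

/-- The drift of the tilt `h` relative to the direction `v`. -/
def kap (μ : Measure ℝ) (s v h : ℝ) : ℝ := lam μ (s + h) - lam μ s - h * v

/-- The tilted luck: `T_n(a) = log ∑_y W(a; n, y) exp (h (y - v n))` (`exp_T`). -/
def T (μ : Measure ℝ) (s v h : ℝ) (η : Env) (a : Pt) (n : ℕ) : ℝ :=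
  V μ (s + h) η a n + n * kap μ s v h

/-- The starts and lengths `((t, x), j)` with `t + j ≤ n` and `z < x - v t ≤ z + w`. -/
def Bx (v w z : ℝ) (n : ℕ) : Finset ((ℕ × ℤ) × ℕ) :=
  ((Finset.range (n + 1) ×ˢ Finset.Icc ⌊z⌋ (⌈z + w⌉ + n)) ×ˢ Finset.range (n + 1)).filter
    fun q => q.1.1 + q.2 ≤ n ∧ z < (q.1.2 : ℝ) - v * (q.1.1 : ℝ) ∧ (q.1.2 : ℝ) - v * (q.1.1 : ℝ) ≤ z + w

theorem mem_Bx {v w z : ℝ} {n : ℕ} (hv0 : 0 ≤ v) (hv1 : v ≤ 1) {q : (ℕ × ℤ) × ℕ} :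
    q ∈ Bx v w z n ↔ q.1.1 + q.2 ≤ n ∧ z < (q.1.2 : ℝ) - v * (q.1.1 : ℝ) ∧ (q.1.2 : ℝ) - v * (q.1.1 : ℝ) ≤ z + w := by
  unfold Bx
  rw [Finset.mem_filter, Finset.mem_product, Finset.mem_product, Finset.mem_range, Finset.mem_range, Finset.mem_Icc]
  constructor
  · exact fun h => h.2
  · intro h
    obtain ⟨h1, h2, h3⟩ := h
    have ht : (0 : ℝ) ≤ v * (q.1.1 : ℝ) := mul_nonneg hv0 (Nat.cast_nonneg _)
    have htn : (q.1.1 : ℝ) ≤ n := by
      have : q.1.1 ≤ n := by omega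
      exact_mod_cast this
    have ht2 : v * (q.1.1 : ℝ) ≤ n := by
      have : v * (q.1.1 : ℝ) ≤ 1 * (q.1.1 : ℝ) := mul_le_mul_of_nonneg_right hv1 (Nat.cast_nonneg _)
      linarith
    refine ⟨⟨⟨by omega, ?_, ?_⟩, by omega⟩, h1, h2, h3⟩
    · have h4 : ((⌊z⌋ : ℤ) : ℝ) ≤ q.1.2 := (Int.floor_le z).trans (by linarith)
      exact_mod_cast h4
    · have h4 : (q.1.2 : ℝ) ≤ ((⌈z + w⌉ + n : ℤ) : ℝ) := by
        have := Int.le_ceil (z + w)
        push_cast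
        linarith
      exact_mod_cast h4

/-- The largest tilted luck (at least `0`) of the box with the relative positions `(z, z + w]`. -/
def Mh (μ : Measure ℝ) (s v h w z : ℝ) (n : ℕ) (η : Env) : ℝ :=
  (Bx v w z n).fold max 0 fun q => T μ s v h η ((q.1.1 : ℤ), q.1.2) q.2

/-- The overshoot: the largest one step luck from the row `t`, at the positions `⌊z⌋ ≤ x ≤ ⌈z + w⌉ + n`; at least `0`. -/
def Ov (μ : Measure ℝ) (s w z : ℝ) (n : ℕ) (t : ℤ) (η : Env) : ℝ :=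
  (Finset.Icc ⌊z⌋ (⌈z + w⌉ + n)).fold max 0 fun x => V μ s η (t, x) 1

/-- At the level `l` one of the two tilted lucks (tilts `h0`, `h1`) of the box is at least `Y`. -/
def Ht (μ : Measure ℝ) (s v w h0 h1 Y z : ℝ) (n l : ℕ) (η : Env) : Prop :=
  ∃ q ∈ Bx v w z n, q.1.1 + q.2 = l ∧
    (Y ≤ T μ s v h0 η ((q.1.1 : ℤ), q.1.2) q.2 ∨ Y ≤ T μ s v h1 η ((q.1.1 : ℤ), q.1.2) q.2)

/-- `l` is the first level with `Ht`. -/
def Fh (μ : Measure ℝ) (s v w h0 h1 Y z : ℝ) (n l : ℕ) (η : Env) : Prop :=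
  Fi (Finset.range (n + 1)) (id : ℕ → ℕ) (fun l => Ht μ s v w h0 h1 Y z n l η) l

/-- The cost of a far cell. -/
def far (κ : ℝ) (j : ℤ) : ℝ := κ * max (|(j : ℝ)| - 1) 0

/-- The hypotheses on the numbers (`κ` = cost of a cell). -/
structure Nm (v w h0 h h1 κ : ℝ) : Prop where
  v0 : 0 ≤ v
  v1 : v ≤ 1
  w1 : 1 ≤ w
  a0 : |h0| ≤ 1
  a1 : |h1| ≤ 1
  l0 : h0 ≤ h
  l1 : h ≤ h1
  κ0 : 0 ≤ κ
  k0 : κ ≤ (h - h0) * w
  k1 : κ ≤ (h1 - h) * w

/-- The conclusion of THEOREM A (at the tilt `s'`): one function `G ≥ 0` of mean at most `A`, and for all positions `z` of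
the box the probability of a luck `≥ Y` in the box is at most `4 P(G ≥ Y - A)`. -/
def HitV (μ : Measure ℝ) (s' v w : ℝ) (n : ℕ) (A : ℝ) : Prop :=
  ∃ G : Env → ℝ, Measurable G ∧ (∀ η, 0 ≤ G η) ∧ Integrable G (law μ) ∧ ∫ η, G η ∂(law μ) ≤ A ∧
    ∀ z Y : ℝ, 0 < Y → (law μ).real {η | ∃ q ∈ Bx v w z n, Y ≤ V μ s' η ((q.1.1 : ℤ), q.1.2) q.2} ≤
      4 * (law μ).real {η | Y - A ≤ G η}

end

end Pool.Agent.W_7d29a1_L
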