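import Pool.Agent.W_7d29a1_L.LsA1

/-!
L*: the deterministic restart at the first level where a luck with the tilt `h0` or `h1` is at least `Y`
(compare `W_7d29a1_F/LuckE.lean`, `Mx_le_of_Hit`, `exp_Mx_le`).
-/

namespace Pool.Agent.W_7d29a1_L

open MeasureTheory ProbabilityTheory Filter Topology
open Pool.Agent.W_7d29a1_F

variable {μ : Measure ℝ} {s v w h0 h h1 κ Y z : ℝ} {n : ℕ}

private theorem far_zero : far κ 0 = 0 := by
  unfold far
  have e : |((0 : ℤ) : ℝ)| - 1 = -1 := by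
    rw [Int.cast_zero, abs_zero]
    ring
  rw [e, max_eq_right (by norm_num), mul_zero]

private theorem far_pos_eq {j : ℤ} (hj : 1 ≤ j) : far κ j = κ * ((j : ℝ) - 1) := by
  unfold far
  have h1 : (1 : ℝ) ≤ j := by exact_mod_cast hj
  rw [abs_of_nonneg (by linarith), max_eq_left (by linarith)]

private theorem far_neg_eq {j : ℤ} (hj : j ≤ -1) : far κ j = κ * (-(j : ℝ) - 1) := by
  unfold far
  have h1 : (j : ℝ) ≤ -1 := by exact_mod_cast hj
  rw [abs_of_nonpos (by linarith), max_eq_left (by linarith)]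

private theorem exp_two_le (N : Nm v w h0 h h1 κ) (u : ℝ) :
    Real.exp (h * u) ≤ Real.exp (h0 * u) + Real.exp (h1 * u) := by
  have p0 := Real.exp_pos (h0 * u)
  have p1 := Real.exp_pos (h1 * u)
  rcases le_total 0 u with hu | hu
  · have := Real.exp_le_exp.2 (mul_le_mul_of_nonneg_right N.l1 hu)
    linarith
  · have := Real.exp_le_exp.2 (mul_le_mul_of_nonpos_right N.l0 hu)
    linarith

/-- PROOF. `j ≥ 1`: `u ≥ (j - 1) w ≥ 0`, `h u = h1 u - (h1 - h) u ≤ h1 u - κ (j - 1)`. `j ≤ -1`: `u ≤ (j + 1) w ≤ 0`,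
`h u = h0 u + (h - h0) u ≤ h0 u - κ (|j| - 1)`. `j = 0`: `h u ≤ h1 u` or `h u ≤ h0 u` by the sign of `u`. -/
theorem tilt_le (N : Nm v w h0 h h1 κ) {u : ℝ} {j : ℤ} (u1 : ((j : ℝ) - 1) * w ≤ u) (u2 : u ≤ ((j : ℝ) + 1) * w) :
    Real.exp (h * u) ≤ (Real.exp (h0 * u) + Real.exp (h1 * u)) * Real.exp (-far κ j) := by
  have p0 := Real.exp_pos (h0 * u)
  have p1 := Real.exp_pos (h1 * u)
  have pf := Real.exp_pos (-far κ j)
  rcases lt_trichotomy j 0 with hj | hj | hj
  · have hj1 : j ≤ -1 := by omega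
    have hjr : (j : ℝ) ≤ -1 := by exact_mod_cast hj1
    have e1 : h * u ≤ h0 * u + -far κ j := by
      rw [far_neg_eq hj1]
      have a1 : (h - h0) * (-(j : ℝ) - 1) * w ≤ (h - h0) * (-u) := by
        rw [mul_assoc]
        refine mul_le_mul_of_nonneg_left ?_ (by linarith [N.l0])
        nlinarith
      have a2 : κ * (-(j : ℝ) - 1) ≤ (h - h0) * w * (-(j : ℝ) - 1) :=
        mul_le_mul_of_nonneg_right N.k0 (by linarith)
      nlinarith
    calc Real.exp (h * u) ≤ Real.exp (h0 * u + -far κ j) := Real.exp_le_exp.2 e1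
      _ = Real.exp (h0 * u) * Real.exp (-far κ j) := Real.exp_add _ _
      _ ≤ _ := mul_le_mul_of_nonneg_right (by linarith) pf.le
  · subst hj
    rw [far_zero, neg_zero, Real.exp_zero, mul_one]
    exact exp_two_le N u
  · have hj1 : 1 ≤ j := by omega
    have hjr : (1 : ℝ) ≤ j := by exact_mod_cast hj1
    have e1 : h * u ≤ h1 * u + -far κ j := by
      rw [far_pos_eq hj1]
      have a1 : (h1 - h) * (((j : ℝ) - 1) * w) ≤ (h1 - h) * u :=
        mul_le_mul_of_nonneg_left u1 (by linarith [N.l1])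
      have a2 : κ * ((j : ℝ) - 1) ≤ (h1 - h) * w * ((j : ℝ) - 1) :=
        mul_le_mul_of_nonneg_right N.k1 (by linarith)
      nlinarith
    calc Real.exp (h * u) ≤ Real.exp (h1 * u + -far κ j) := Real.exp_le_exp.2 e1
      _ = Real.exp (h1 * u) * Real.exp (-far κ j) := Real.exp_add _ _
      _ ≤ _ := mul_le_mul_of_nonneg_right (by linarith) pf.le

/-- Before a hit. PROOF. `exp_T` for `h`, `h0`, `h1`: `exp (h u) ≤ exp (h0 u) + exp (h1 u)`. -/
theorem T_le_of_lt (N : Nm v w h0 h h1 κ) (η : Env) (a : Pt) (m : ℕ) {c : ℝ}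
    (H0 : T μ s v h0 η a m ≤ c) (H1 : T μ s v h1 η a m ≤ c) : T μ s v h η a m ≤ c + Real.log 2 := by
  have e : Real.exp (T μ s v h η a m) ≤ Real.exp (c + Real.log 2) := by
    have e1 : Real.exp (T μ s v h η a m) ≤ Real.exp (T μ s v h0 η a m) + Real.exp (T μ s v h1 η a m) := by
      rw [exp_T, exp_T, exp_T, ← Finset.sum_add_distrib]
      refine Finset.sum_le_sum fun y _ => ?_
      rw [← mul_add]
      exact mul_le_mul_of_nonneg_left (exp_two_le N _) (W_nonneg _ _ _ _)
    have e2 := Real.exp_le_exp.2 H0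
    have e3 := Real.exp_le_exp.2 H1
    rw [Real.exp_add, Real.exp_log (by norm_num)]
    linarith
  exact Real.exp_le_exp.1 e

theorem Ht_zero (hY : 0 < Y) (η : Env) : ¬ Ht μ s v w h0 h1 Y z n 0 η := by
  rintro ⟨q, _, h1, h2⟩
  have h3 : q.2 = 0 := by omega
  rw [h3, T_zero, T_zero] at h2
  rcases h2 with h2 | h2 <;> linarith

private theorem lt_of_not_Ht {η : Env} {l : ℕ} (H : ¬ Ht μ s v w h0 h1 Y z n l η) {q : (ℕ × ℤ) × ℕ}
    (hq : q ∈ Bx v w z n) (hl : q.1.1 + q.2 = l) :
    T μ s v h0 η ((q.1.1 : ℤ), q.1.2) q.2 < Y ∧ T μ s v h1 η ((q.1.1 : ℤ), q.1.2) q.2 < Y := by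
  constructor
  · by_contra hcon
    exact H ⟨q, hq, hl, Or.inl (not_lt.1 hcon)⟩
  · by_contra hcon
    exact H ⟨q, hq, hl, Or.inr (not_lt.1 hcon)⟩

/-- The deterministic restart. `D` bounds all the maxima of the future, minus the costs of the cells.
PROOF. Let `q = ((t, x), j0) ∈ Bx v w z n`; `Mh_le`. (a) `t + j0 < l`: both lucks are `< Y` (first hit at `l`; for
`hF : Fh .. l` use its second part), `T_le_of_lt`. (b) `l ≤ t`: `((t - l, x), j0) ∈ Bx v w (z + 0 * w + v * l) (n - l)`,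
`T_sh`, so `T ≤ Mh .. (sh (l, 0) η) ≤ D` (`j = 0`, `far κ 0 = 0`). (c) `t < l ≤ t + j0`: `l = t + m`, `j0 = m + k`,
`m = i + 1`; `exp_T_add`; for `0 ≤ y ≤ m` the point `(l, x + y)` has `ρ = x + y - v l`, `j := ⌈(ρ - z) / w⌉ - 1`,
`z + j w < ρ ≤ z + (j + 1) w`; `T .. (l, x + y) k ≤ Mh .. (z + j w + v l) (n - l) (sh (l, 0) η) ≤ D + far κ j`; `tilt_le`
with `u = y - v m`; sum over `y`: `exp T ≤ (exp T^{h0}_m + exp T^{h1}_m) exp D`, and `T^{h'}_m ≤ Y + (Ov (l - 1) + 1)` by
`T_step_le` (level `l - 1` is before the hit). -/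
theorem Mh_le_of_Fh (N : Nm v w h0 h h1 κ) (hY : 0 < Y) (η : Env) {l : ℕ} (hl : l ≤ n)
    (hF : Fh μ s v w h0 h1 Y z n l η) {D : ℝ} (hD0 : 0 ≤ D)
    (hD : ∀ j ∈ Finset.Icc (-((n : ℤ) + 2)) ((n : ℤ) + 2),
      Mh μ s v h w (z + j * w + v * l) (n - l) (sh ((l : ℤ), 0) η) ≤ D + far κ j) :
    1 ≤ l ∧ Mh μ s v h w z n η ≤ Y + Real.log 2 + (Ov μ s w z n ((l : ℤ) - 1) η + 1) + D := by
  have hl1 : 1 ≤ l := by
    by_contra hcon
    have h0' : l = 0 := by omega
    have h1' := hF.1
    rw [h0'] at h1'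
    exact Ht_zero hY η h1'
  refine ⟨hl1, ?_⟩
  have hw1 := N.w1
  have hw0 : 0 < w := by linarith
  have hv0 := N.v0
  have hv1 := N.v1
  obtain ⟨O, hO⟩ : ∃ O, O = Ov μ s w z n ((l : ℤ) - 1) η := ⟨_, rfl⟩
  have hO0 : 0 ≤ O := by rw [hO]; exact Ov_nonneg _ _
  have hlog : 0 < Real.log 2 := Real.log_pos (by norm_num)
  rw [← hO]
  -- the lucks which end before the level `l`
  have hlow : ∀ q ∈ Bx v w z n, q.1.1 + q.2 < l →
      T μ s v h0 η ((q.1.1 : ℤ), q.1.2) q.2 < Y ∧ T μ s v h1 η ((q.1.1 : ℤ), q.1.2) q.2 < Y := by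
    intro q hq hlt
    refine lt_of_not_Ht (l := q.1.1 + q.2) ?_ hq rfl
    exact hF.2 (q.1.1 + q.2) (Finset.mem_range.2 (by omega)) hlt
  -- the lucks which end at the level `l` or before
  have hA : ∀ (t : ℕ) (x : ℤ) (m : ℕ), ((t, x), m) ∈ Bx v w z n → t + m ≤ l →
      T μ s v h0 η ((t : ℤ), x) m ≤ Y + (O + 1) ∧ T μ s v h1 η ((t : ℤ), x) m ≤ Y + (O + 1) := by
    intro t x m hm hle
    rcases hle.lt_or_eq with g1 | g1
    · have g2 := hlow ((t, x), m) hm g1
      simp only at g2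
      constructor <;> linarith [g2.1, g2.2]
    · cases m with
      | zero =>
        rw [T_zero, T_zero]
        constructor <;> linarith
      | succ i =>
        have hm' := (mem_Bx hv0 hv1).1 hm
        simp only at hm'
        obtain ⟨m1, m2, m3⟩ := hm'
        have g2 := hlow ((t, x), i) ((mem_Bx hv0 hv1).2 ⟨by simp only; omega, m2, m3⟩) (by simp only; omega)
        simp only at g2
        have ht0 : (0 : ℝ) ≤ v * t := mul_nonneg hv0 (Nat.cast_nonneg _)
        have ht1 : v * (t : ℝ) ≤ t := by nlinarith [(Nat.cast_nonneg t : (0 : ℝ) ≤ t)]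
        have x1 : ⌊z⌋ ≤ x := by
          have : ((⌊z⌋ : ℤ) : ℝ) ≤ x := (Int.floor_le z).trans (by linarith)
          exact_mod_cast this
        have x2 : x ≤ ⌈z + w⌉ + t := by
          have : (x : ℝ) ≤ ((⌈z + w⌉ + (t : ℤ) : ℤ) : ℝ) := by
            have := Int.le_ceil (z + w)
            push_cast
            linarith
          exact_mod_cast this
        have hV : ∀ k : ℤ, 0 ≤ k → k ≤ i → V μ s η ((((t : ℤ), x) : Pt).1 + (i : ℤ), (((t : ℤ), x) : Pt).2 + k) 1 ≤ O := by
          intro k hk0 hk1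
          have e1 : (((t : ℤ), x) : Pt).1 + (i : ℤ) = (l : ℤ) - 1 := by
            show (t : ℤ) + i = l - 1
            omega
          rw [e1, hO]
          refine le_Ov _ η ?_ ?_
          · show ⌊z⌋ ≤ x + k
            omega
          · show x + k ≤ ⌈z + w⌉ + n
            omega
        have g3 := T_step_le (μ := μ) (s := s) hv0 hv1 N.a0 η ((t : ℤ), x) i hV
        have g4 := T_step_le (μ := μ) (s := s) hv0 hv1 N.a1 η ((t : ℤ), x) i hV
        constructor <;> linarith [g2.1, g2.2]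
  refine Mh_le η (by linarith) fun q hq => ?_
  obtain ⟨⟨t, x⟩, j0⟩ := q
  have hq' := (mem_Bx hv0 hv1).1 hq
  simp only at hq' ⊢
  obtain ⟨q1, q2, q3⟩ := hq'
  rcases le_or_gt (t + j0) l with g1 | g1
  · have g2 := hA t x j0 hq g1
    have g3 := T_le_of_lt N η ((t : ℤ), x) j0 g2.1 g2.2
    linarith
  · rcases le_or_gt l t with g2 | g2
    · -- the luck starts at the level `l` or later
      have g3 := le_Mh (μ := μ) (s := s) (v := v) (h := h) (w := w) (z := z + ((0 : ℤ) : ℝ) * w + v * l) (n := n - l)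
        (sh ((l : ℤ), 0) η) (q := ((t - l, x), j0)) ((mem_Bx hv0 hv1).2 (by
          simp only
          rw [Nat.cast_sub g2]
          refine ⟨by omega, ?_, ?_⟩
          · rw [Int.cast_zero]
            linarith
          · rw [Int.cast_zero]
            linarith))
      rw [T_sh] at g3
      have e1 : ((((t - l : ℕ) : ℤ), x) + ((l : ℤ), 0) : Pt) = ((t : ℤ), x) := by
        refine Prod.ext ?_ ?_
        · show ((t - l : ℕ) : ℤ) + l = t
          omega
        · show x + 0 = x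
          ring
      simp only at g3
      rw [e1] at g3
      have g4 := hD 0 (Finset.mem_Icc.2 ⟨by omega, by omega⟩)
      rw [far_zero] at g4
      linarith
    · -- the luck crosses the level `l`
      obtain ⟨m, hm⟩ : ∃ m, l = t + m := ⟨l - t, by omega⟩
      obtain ⟨k, hk⟩ : ∃ k, j0 = m + k := ⟨j0 - m, by omega⟩
      have hmr : (l : ℝ) = t + m := by rw [hm]; push_cast; ring
      have hmn : (m : ℝ) ≤ n := by
        have : m ≤ n := by omega
        exact_mod_cast this
      have hm0 : (0 : ℝ) ≤ m := Nat.cast_nonneg _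
      have hvm0 : 0 ≤ v * m := mul_nonneg hv0 hm0
      have hvm1 : v * m ≤ m := by nlinarith
      have g3 := hA t x m ((mem_Bx hv0 hv1).2 ⟨by simp only; omega, q2, q3⟩) (by omega)
      have hterm : ∀ y ∈ Finset.Icc (0 : ℤ) m,
          (W μ s η ((t : ℤ), x) m y * Real.exp (h * ((y : ℝ) - v * m))) *
            Real.exp (T μ s v h η ((((t : ℤ), x) : Pt).1 + m, (((t : ℤ), x) : Pt).2 + y) k) ≤
          (W μ s η ((t : ℤ), x) m y * Real.exp (h0 * ((y : ℝ) - v * m)) +
            W μ s η ((t : ℤ), x) m y * Real.exp (h1 * ((y : ℝ) - v * m))) * Real.exp D := by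
        intro y hy
        rw [Finset.mem_Icc] at hy
        have hy0 : (0 : ℝ) ≤ y := by exact_mod_cast hy.1
        have hym : (y : ℝ) ≤ m := by exact_mod_cast hy.2
        obtain ⟨j, hj⟩ : ∃ j : ℤ, j = ⌈((x : ℝ) + y - v * l - z) / w⌉ - 1 := ⟨_, rfl⟩
        have j1 : (x : ℝ) + y - v * l - z ≤ ((j : ℝ) + 1) * w := by
          have a1 := Int.le_ceil (((x : ℝ) + y - v * l - z) / w)
          rw [div_le_iff₀ hw0] at a1
          rw [hj]
          push_cast
          linarith
        have j2 : (j : ℝ) * w < (x : ℝ) + y - v * l - z := by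
          have a1 := Int.ceil_lt_add_one (((x : ℝ) + y - v * l - z) / w)
          have a2 : (j : ℝ) < ((x : ℝ) + y - v * l - z) / w := by
            rw [hj]
            push_cast
            linarith
          rwa [lt_div_iff₀ hw0] at a2
        have ju : (x : ℝ) + y - v * l = (x - v * t) + (y - v * m) := by rw [hmr]; ring
        have jn1 : -((n : ℤ) + 2) ≤ j := by
          have b1 : -(n : ℝ) < ((j : ℝ) + 1) * w := by
            rw [ju] at j1
            linarith
          have b2 : -((n : ℝ)) ≤ (j : ℝ) + 1 := by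
            by_contra hcon
            have b3 : (j : ℝ) + 1 < -(n : ℝ) := not_le.1 hcon
            have b4 : ((j : ℝ) + 1) * w ≤ (j : ℝ) + 1 := by
              have : (0 : ℝ) ≤ n := Nat.cast_nonneg _
              nlinarith
            linarith
          have b5 : -((n : ℤ)) ≤ j + 1 := by exact_mod_cast b2
          omega
        have jn2 : j ≤ (n : ℤ) + 2 := by
          have b1 : (j : ℝ) * w < w + n := by
            rw [ju] at j2
            linarith
          have b2 : (j : ℝ) ≤ n + 1 := by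
            by_contra hcon
            have b3 : (n : ℝ) + 1 < j := not_le.1 hcon
            have b4 : ((n : ℝ) + 1) * w ≤ (j : ℝ) * w := mul_le_mul_of_nonneg_right b3.le hw0.le
            have : (0 : ℝ) ≤ n := Nat.cast_nonneg _
            nlinarith
          have b5 : j ≤ (n : ℤ) + 1 := by exact_mod_cast b2
          omega
        have c1 := le_Mh (μ := μ) (s := s) (v := v) (h := h) (w := w) (z := z + (j : ℝ) * w + v * l) (n := n - l)
          (sh ((l : ℤ), 0) η) (q := ((0, x + y), k)) ((mem_Bx hv0 hv1).2 (by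
            simp only
            push_cast
            refine ⟨by omega, ?_, ?_⟩
            · linarith
            · linarith))
        rw [T_sh] at c1
        have e1 : ((((0 : ℕ) : ℤ), x + y) + ((l : ℤ), 0) : Pt) = ((((t : ℤ), x) : Pt).1 + m, (((t : ℤ), x) : Pt).2 + y) := by
          refine Prod.ext ?_ ?_
          · show ((0 : ℕ) : ℤ) + l = t + m
            omega
          · show x + y + 0 = x + y
            ring
        simp only at c1 e1
        rw [e1] at c1
        have c2 := hD j (Finset.mem_Icc.2 ⟨jn1, jn2⟩)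
        have c3 : Real.exp (T μ s v h η ((t : ℤ) + m, x + y) k) ≤ Real.exp (D + far κ j) :=
          Real.exp_le_exp.2 (c1.trans c2)
        have c4 := tilt_le N (u := (y : ℝ) - v * m) (j := j) (by rw [ju] at j2; linarith) (by rw [ju] at j1; linarith)
        have hW : 0 ≤ W μ s η ((t : ℤ), x) m y := W_nonneg _ _ _ _
        obtain ⟨A0, hA0⟩ : ∃ A0, A0 = Real.exp (h0 * ((y : ℝ) - v * m)) := ⟨_, rfl⟩
        obtain ⟨A1, hA1⟩ : ∃ A1, A1 = Real.exp (h1 * ((y : ℝ) - v * m)) := ⟨_, rfl⟩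
        rw [← hA0, ← hA1] at c4 ⊢
        have p0 : 0 < A0 := by rw [hA0]; exact Real.exp_pos _
        have p1 : 0 < A1 := by rw [hA1]; exact Real.exp_pos _
        calc (W μ s η ((t : ℤ), x) m y * Real.exp (h * ((y : ℝ) - v * m))) * Real.exp (T μ s v h η ((t : ℤ) + m, x + y) k)
            ≤ (W μ s η ((t : ℤ), x) m y * ((A0 + A1) * Real.exp (-far κ j))) * Real.exp (D + far κ j) :=
              mul_le_mul (mul_le_mul_of_nonneg_left c4 hW) c3 (Real.exp_pos _).le
                (mul_nonneg hW (mul_nonneg (by linarith) (Real.exp_pos _).le))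
          _ = (W μ s η ((t : ℤ), x) m y * A0 + W μ s η ((t : ℤ), x) m y * A1) * (Real.exp (-far κ j) * Real.exp (D + far κ j)) := by
              ring
          _ = (W μ s η ((t : ℤ), x) m y * A0 + W μ s η ((t : ℤ), x) m y * A1) * Real.exp D := by
              rw [← Real.exp_add]
              congr 2
              ring
      have hsum : Real.exp (T μ s v h η ((t : ℤ), x) j0) ≤
          (Real.exp (T μ s v h0 η ((t : ℤ), x) m) + Real.exp (T μ s v h1 η ((t : ℤ), x) m)) * Real.exp D := by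
        rw [hk, exp_T_add]
        refine (Finset.sum_le_sum hterm).trans (le_of_eq ?_)
        rw [← Finset.sum_mul, Finset.sum_add_distrib, ← exp_T, ← exp_T]
      have hfin : Real.exp (T μ s v h η ((t : ℤ), x) j0) ≤ Real.exp (Y + Real.log 2 + (O + 1) + D) := by
        refine hsum.trans ?_
        have d1 := Real.exp_le_exp.2 g3.1
        have d2 := Real.exp_le_exp.2 g3.2
        have e2 : Real.exp (Y + Real.log 2 + (O + 1) + D) = (Real.exp (Y + (O + 1)) + Real.exp (Y + (O + 1))) * Real.exp D := by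
          have e3 : Y + Real.log 2 + (O + 1) + D = Real.log 2 + (Y + (O + 1)) + D := by ring
          rw [e3, Real.exp_add, Real.exp_add, Real.exp_log (by norm_num)]
          ring
        rw [e2]
        exact mul_le_mul_of_nonneg_right (by linarith) (Real.exp_pos _).le
      exact Real.exp_le_exp.1 hfin

theorem Mh_le_of_not (N : Nm v w h0 h h1 κ) (hY : 0 < Y) (η : Env)
    (H : ¬ ∃ l ∈ Finset.range (n + 1), Ht μ s v w h0 h1 Y z n l η) : Mh μ s v h w z n η ≤ Y + Real.log 2 := by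
  have hlog : 0 < Real.log 2 := Real.log_pos (by norm_num)
  refine Mh_le η (by linarith) fun q hq => ?_
  have hq' := (mem_Bx N.v0 N.v1).1 hq
  have g := lt_of_not_Ht (μ := μ) (s := s) (h0 := h0) (h1 := h1) (Y := Y) (η := η) (l := q.1.1 + q.2)
    (fun hcon => H ⟨q.1.1 + q.2, Finset.mem_range.2 (by omega), hcon⟩) hq rfl
  exact T_le_of_lt N η _ _ g.1.le g.2.le

/-- The pointwise restart inequality. PROOF. If there is a hit take the first one (`sum_Fi` or
`Finset.exists_min_image`), `D :=` the maximum over `j` of `max 0 (Mh .. - far κ j)`, `exp (θ D) ≤ ∑_j ..` (`D` is `0` or one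
of the terms; for `D = 0` use `j = 0`), `Mh_le_of_Fh`; otherwise `Mh_le_of_not`. -/
theorem exp_Mh_le (N : Nm v w h0 h h1 κ) (hY : 0 < Y) {θ : ℝ} (hθ : 0 ≤ θ) (η : Env) :
    Real.exp (θ * Mh μ s v h w z n η) ≤ Real.exp (θ * (Y + Real.log 2)) * (1 + ∑ l ∈ Finset.range (n + 1),
      (io (Fh μ s v w h0 h1 Y z n l η) * Real.exp (θ * (Ov μ s w z n ((l : ℤ) - 1) η + 1))) *
        ∑ j ∈ Finset.Icc (-((n : ℤ) + 2)) ((n : ℤ) + 2), Real.exp (-(θ * far κ j)) *
          Real.exp (θ * Mh μ s v h w (z + j * w + v * l) (n - l) (sh ((l : ℤ), 0) η))) := by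
  have hnn2 : ∀ l : ℕ, 0 ≤ ∑ j ∈ Finset.Icc (-((n : ℤ) + 2)) ((n : ℤ) + 2), Real.exp (-(θ * far κ j)) *
      Real.exp (θ * Mh μ s v h w (z + j * w + v * l) (n - l) (sh ((l : ℤ), 0) η)) := fun l =>
    Finset.sum_nonneg fun j _ => by positivity
  have hnn : ∀ l ∈ Finset.range (n + 1), 0 ≤
      (io (Fh μ s v w h0 h1 Y z n l η) * Real.exp (θ * (Ov μ s w z n ((l : ℤ) - 1) η + 1))) *
        ∑ j ∈ Finset.Icc (-((n : ℤ) + 2)) ((n : ℤ) + 2), Real.exp (-(θ * far κ j)) *
          Real.exp (θ * Mh μ s v h w (z + j * w + v * l) (n - l) (sh ((l : ℤ), 0) η)) := fun l _ =>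
    mul_nonneg (mul_nonneg (io_nonneg _) (Real.exp_pos _).le) (hnn2 l)
  by_cases H : ∃ l ∈ Finset.range (n + 1), Ht μ s v w h0 h1 Y z n l η
  · obtain ⟨l, hl, hF⟩ : ∃ l ∈ Finset.range (n + 1), Fh μ s v w h0 h1 Y z n l η := by
      by_contra hcon
      push Not at hcon
      have g1 := sum_Fi (Finset.range (n + 1)) (r := (id : ℕ → ℕ)) Function.injective_id
        (fun l => Ht μ s v w h0 h1 Y z n l η)
      have g2 : ∑ i ∈ Finset.range (n + 1), io (Fi (Finset.range (n + 1)) (id : ℕ → ℕ)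
          (fun l => Ht μ s v w h0 h1 Y z n l η) i) = 0 := Finset.sum_eq_zero fun i hi => io_not (hcon i hi)
      rw [io_of H, g2] at g1
      exact zero_ne_one g1
    have hln : l ≤ n := by
      have := Finset.mem_range.1 hl
      omega
    obtain ⟨js, hjs, hmax⟩ := Finset.exists_max_image (Finset.Icc (-((n : ℤ) + 2)) ((n : ℤ) + 2))
      (fun j : ℤ => Mh μ s v h w (z + j * w + v * l) (n - l) (sh ((l : ℤ), 0) η) - far κ j)
      ⟨0, Finset.mem_Icc.2 ⟨by omega, by omega⟩⟩
    obtain ⟨D, hD⟩ : ∃ D, D = Mh μ s v h w (z + js * w + v * l) (n - l) (sh ((l : ℤ), 0) η) - far κ js := ⟨_, rfl⟩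
    have hD0 : 0 ≤ D := by
      have g1 := hmax 0 (Finset.mem_Icc.2 ⟨by omega, by omega⟩)
      have g2 := Mh_nonneg (μ := μ) (s := s) (v := v) (h := h) (w := w) (z := z + ((0 : ℤ) : ℝ) * w + v * l) (n := n - l)
        (sh ((l : ℤ), 0) η)
      rw [far_zero] at g1
      rw [hD]
      linarith
    have g1 := (Mh_le_of_Fh N hY η hln hF hD0 (fun j hj => by
      have := hmax j hj
      rw [hD]
      linarith)).2
    have g2 := Finset.single_le_sum hnn hl
    rw [io_of hF, one_mul] at g2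
    have g3 : Real.exp (θ * D) ≤ ∑ j ∈ Finset.Icc (-((n : ℤ) + 2)) ((n : ℤ) + 2), Real.exp (-(θ * far κ j)) *
          Real.exp (θ * Mh μ s v h w (z + j * w + v * l) (n - l) (sh ((l : ℤ), 0) η)) := by
      have g4 := Finset.single_le_sum (f := fun j : ℤ => Real.exp (-(θ * far κ j)) *
          Real.exp (θ * Mh μ s v h w (z + j * w + v * l) (n - l) (sh ((l : ℤ), 0) η))) (fun j _ => by positivity) hjs
      refine le_trans (le_of_eq ?_) g4
      rw [← Real.exp_add, hD]
      congr 1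
      ring
    obtain ⟨O, hO⟩ : ∃ O, O = Ov μ s w z n ((l : ℤ) - 1) η := ⟨_, rfl⟩
    rw [← hO] at g1 g2
    have g5 : Real.exp (θ * Mh μ s v h w z n η) ≤
        Real.exp (θ * (Y + Real.log 2)) * (Real.exp (θ * (O + 1)) * Real.exp (θ * D)) := by
      rw [← Real.exp_add, ← Real.exp_add]
      refine Real.exp_le_exp.2 ?_
      have := mul_le_mul_of_nonneg_left g1 hθ
      linarith
    refine g5.trans (mul_le_mul_of_nonneg_left ?_ (Real.exp_pos _).le)
    have g6 := mul_le_mul_of_nonneg_left g3 (Real.exp_pos (θ * (O + 1))).le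
    linarith
  · have g1 := Mh_le_of_not N hY η H
    have g2 : Real.exp (θ * Mh μ s v h w z n η) ≤ Real.exp (θ * (Y + Real.log 2)) :=
      Real.exp_le_exp.2 (mul_le_mul_of_nonneg_left g1 hθ)
    refine g2.trans ?_
    have g3 := Finset.sum_nonneg hnn
    have g4 := Real.exp_pos (θ * (Y + Real.log 2))
    nlinarith

end Pool.Agent.W_7d29a1_L
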