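import Pool.Agent.W_7d29a1_L.LsDefs

/-!
L*: the error of the overshoot (compare `W_7d29a1_F/LuckE.lean`, `step_err`), and the sum over the cells.
-/

namespace Pool.Agent.W_7d29a1_L

open MeasureTheory ProbabilityTheory Filter Topology
open Pool.Agent.W_7d29a1_F

variable {μ : Measure ℝ}

/-- The sum over the cells. PROOF. `far 1 j = |j| - 1` for `|j| ≥ 1`, `0` for `j = 0`; geometric series
`1 / (1 - exp (-x)) ≤ 1 + 1 / x`. -/
theorem sum_far {x : ℝ} (hx : 0 < x) (M : ℕ) :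
    ∑ j ∈ Finset.Icc (-(M : ℤ)) (M : ℤ), Real.exp (-(x * max (|(j : ℝ)| - 1) 0)) ≤ 5 + 2 / x := by
  have h1 : ∀ M : ℕ, ∑ j ∈ Finset.Icc (-(M : ℤ)) (M : ℤ), Real.exp (-(x * max (|(j : ℝ)| - 1) 0)) =
      1 + 2 * ∑ i ∈ Finset.range M, Real.exp (-x) ^ i := by
    intro M
    induction M with
    | zero => simp
    | succ M ih =>
      have e1 : Finset.Icc (-((M + 1 : ℕ) : ℤ)) ((M + 1 : ℕ) : ℤ) =
          insert (-((M : ℤ) + 1)) (insert ((M : ℤ) + 1) (Finset.Icc (-(M : ℤ)) (M : ℤ))) := by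
        ext j
        simp only [Finset.mem_Icc, Finset.mem_insert]
        push_cast
        omega
      have hn1 : (-((M : ℤ) + 1)) ∉ insert ((M : ℤ) + 1) (Finset.Icc (-(M : ℤ)) (M : ℤ)) := by
        simp only [Finset.mem_Icc, Finset.mem_insert]
        omega
      have hn2 : ((M : ℤ) + 1) ∉ Finset.Icc (-(M : ℤ)) (M : ℤ) := by
        simp only [Finset.mem_Icc]
        omega
      rw [e1, Finset.sum_insert hn1, Finset.sum_insert hn2, ih, Finset.sum_range_succ]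
      have hM : (0 : ℝ) ≤ M := Nat.cast_nonneg M
      have v1 : Real.exp (-(x * max (|((-((M : ℤ) + 1) : ℤ) : ℝ)| - 1) 0)) = Real.exp (-x) ^ M := by
        rw [← Real.exp_nat_mul]
        congr 1
        push_cast
        rw [abs_neg, abs_of_nonneg (by positivity), max_eq_left (by linarith)]
        ring
      have v2 : Real.exp (-(x * max (|(((M : ℤ) + 1 : ℤ) : ℝ)| - 1) 0)) = Real.exp (-x) ^ M := by
        rw [← Real.exp_nat_mul]
        congr 1
        push_cast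
        rw [abs_of_nonneg (by positivity), max_eq_left (by linarith)]
        ring
      rw [v1, v2]
      ring
  rw [h1]
  obtain ⟨r, hr⟩ : ∃ r, r = Real.exp (-x) := ⟨_, rfl⟩
  have hr0 : 0 < r := by rw [hr]; exact Real.exp_pos _
  have hr1 : r < 1 := by rw [hr]; exact Real.exp_lt_one_iff.2 (by linarith)
  have h2 : ∑ i ∈ Finset.range M, r ^ i ≤ (1 - r)⁻¹ := by
    rw [← tsum_geometric_of_lt_one hr0.le hr1]
    exact (summable_geometric_of_lt_one hr0.le hr1).sum_le_tsum _ fun i _ => by positivity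
  have h3 : (1 - r)⁻¹ ≤ 1 + 1 / x := by
    have h4 : (1 + x) * r ≤ 1 := by
      have h5 := Real.add_one_le_exp x
      have h6 : Real.exp x * r = 1 := by rw [hr, ← Real.exp_add]; simp
      nlinarith
    rw [inv_le_comm₀ (by linarith) (by positivity)]
    have h5 : (1 + 1 / x)⁻¹ = x / (1 + x) := by
      field_simp
      ring
    rw [h5, div_le_iff₀ (by linarith)]
    nlinarith
  rw [← hr]
  have h4 : 2 / x = 2 * (1 / x) := by ring
  rw [h4]
  have h5 : 0 < 1 / x := by positivity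
  linarith

private theorem Sub_fold {ι : Type*} (I : Finset ι) {f : ι → Env → ℝ} (hf : ∀ i ∈ I, Sub (f i)) :
    Sub fun η => I.fold max 0 fun i => f i η := by
  classical
  induction I using Finset.induction_on with
  | empty => simpa using Sub.const 0
  | insert a s ha ih =>
    have h1 := (hf a (Finset.mem_insert_self _ _)).max
      (ih fun i hi => hf i (Finset.mem_insert_of_mem hi))
    have e : (fun η => (insert a s).fold max 0 fun i => f i η) =
        fun η => max (f a η) (s.fold max 0 fun i => f i η) := by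
      funext η
      rw [Finset.fold_insert ha]
    rw [e]
    exact h1

private theorem exp_fold {ι : Type*} (I : Finset ι) (f : ι → ℝ) :
    Real.exp (I.fold max 0 f) ≤ 1 + ∑ i ∈ I, Real.exp (f i) := by
  classical
  induction I using Finset.induction_on with
  | empty => simp
  | insert a s ha ih =>
    rw [Finset.fold_insert ha, Finset.sum_insert ha]
    rcases max_cases (f a) (s.fold max 0 f) with ⟨e, -⟩ | ⟨e, -⟩ <;> rw [e]
    · have h1 : 0 ≤ ∑ i ∈ s, Real.exp (f i) := Finset.sum_nonneg fun i _ => (Real.exp_pos _).le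
      linarith
    · have h1 := (Real.exp_pos (f a)).le
      linarith

private theorem le_fold {ι : Type*} {I : Finset ι} (f : ι → ℝ) {i : ι} (hi : i ∈ I) :
    f i ≤ I.fold max 0 f := (Finset.le_fold_max _).2 (Or.inr ⟨i, hi, le_rfl⟩)

private theorem rpow_le_aux {y p : ℝ} (hy : 0 ≤ y) (h0 : 0 ≤ p) (h1 : p ≤ 1) : y ^ p ≤ 1 + y := by
  rcases le_total y 1 with h | h
  · have := Real.rpow_le_one hy h h0
    linarith
  · have := Real.rpow_le_rpow_of_exponent_le h h1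
    rw [Real.rpow_one] at this
    linarith

variable [IsProbabilityMeasure μ]

/-- PROOF. `J = io (∃ l ∈ range (m + 1), Ht ..)`, `O = max_(l ≤ m) Ov (l - 1)` (at least `0`), `A := A0 n ^ 2 ≥ ∫ exp O`,
`Λ := A ^ θ`, `ζ := exp (θ O) / Λ = (exp O / A) ^ θ`. Then `∑_l io (Fh ..) exp (θ (Ov + 1)) ≤ exp θ * J * (Λ ζ)` (`sum_Fi`),
`J ζ ≤ 2 J + ζ ^ q / 2 ^ (q - 1)` (if `ζ ≤ 2`: `J ζ ≤ 2 J`; if `ζ > 2`: `ζ ≤ ζ (ζ / 2) ^ (q - 1)`),
`ζ ^ q = (exp O / A) ^ (q θ) ≤ 1 + exp O / A` for `0 ≤ q θ ≤ 1`, mean `≤ 2`.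
`∫ exp O ≤ A`: `exp O ≤ 1 + ∑_(l, x) exp (V (l - 1, x) 1)`, at most `(m + 1) (⌈z + w⌉ + m - ⌊z⌋ + 1) ≤ 2 n * 6 n`
terms of mean `∫ exp (V 0 1)` (`integral_V_fun`). -/
theorem over_err (em : Pool.Agent.W_7d29a1_h47.EM μ) (s : ℝ) : ∃ A0 : ℝ, 1 ≤ A0 ∧
    ∀ (n m q : ℕ) (v w h0 h1 Y z θ : ℝ), 1 ≤ n → m ≤ n → 1 ≤ q → 1 ≤ w → w ≤ n → 0 ≤ θ → q * θ ≤ 1 →
    ∫ η, ∑ l ∈ Finset.range (m + 1), io (Fh μ s v w h0 h1 Y z m l η) *
      Real.exp (θ * (Ov μ s w z m ((l : ℤ) - 1) η + 1)) ∂(law μ) ≤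
      Real.exp θ * (A0 * (n : ℝ) ^ 2) ^ θ *
        (2 * (law μ).real {η | ∃ l ∈ Finset.range (m + 1), Ht μ s v w h0 h1 Y z m l η} + 4 / 2 ^ q) := by
  obtain ⟨a1, ha1⟩ : ∃ a1 : ℝ, a1 = ∫ η, Real.exp (V μ s η 0 1) ∂(law μ) := ⟨_, rfl⟩
  have ha10 : 0 ≤ a1 := by rw [ha1]; exact integral_nonneg fun η => (Real.exp_pos _).le
  refine ⟨3 + 10 * a1, by linarith, ?_⟩
  intro n m q v w h0 h1 Y z θ hn hmn hq hw hwn hθ hqθ
  have hnr : (1 : ℝ) ≤ n := by exact_mod_cast hn
  have hmr : (m : ℝ) ≤ n := by exact_mod_cast hmn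
  -- the overshoot
  obtain ⟨O, hO⟩ : ∃ O : Env → ℝ, O = fun η => (Finset.range (m + 1)).fold max 0
      fun l : ℕ => Ov μ s w z m ((l : ℤ) - 1) η := ⟨_, rfl⟩
  have hOvS : ∀ t : ℤ, Sub fun η => Ov μ s w z m t η := fun t => by
    unfold Ov
    exact Sub_fold _ fun x _ => Sub_V _ _
  have hOS : Sub O := by
    rw [hO]
    exact Sub_fold _ fun l _ => hOvS _
  obtain ⟨A, hA⟩ : ∃ A : ℝ, A = (3 + 10 * a1) * (n : ℝ) ^ 2 := ⟨_, rfl⟩
  have hn2 : (1 : ℝ) ≤ (n : ℝ) ^ 2 := by nlinarith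
  have hA1 : 1 ≤ A := by rw [hA]; nlinarith
  have hA0 : 0 < A := by linarith
  have hVi : ∀ (a : Pt), Integrable (fun η => Real.exp (V μ s η a 1)) (law μ) := fun a => (Sub_V a 1).exp_int em
  have hexpO : ∀ η, Real.exp (O η) ≤ 1 + ∑ l ∈ Finset.range (m + 1), (1 + ∑ x ∈ Finset.Icc ⌊z⌋ (⌈z + w⌉ + m),
      Real.exp (V μ s η ((l : ℤ) - 1, x) 1)) := by
    intro η
    rw [hO]
    refine (exp_fold _ _).trans ?_
    have h2 : ∀ l ∈ Finset.range (m + 1), Real.exp (Ov μ s w z m ((l : ℤ) - 1) η) ≤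
        1 + ∑ x ∈ Finset.Icc ⌊z⌋ (⌈z + w⌉ + m), Real.exp (V μ s η ((l : ℤ) - 1, x) 1) := fun l _ => by
      unfold Ov
      exact exp_fold _ _
    have h3 := Finset.sum_le_sum h2
    linarith
  have hintO : ∫ η, Real.exp (O η) ∂(law μ) ≤ A := by
    have i0 : ∀ l : ℕ, Integrable (fun η => ∑ x ∈ Finset.Icc ⌊z⌋ (⌈z + w⌉ + m),
        Real.exp (V μ s η ((l : ℤ) - 1, x) 1)) (law μ) := fun l => integrable_finsetSum _ fun x _ => hVi _
    have i1 : ∀ l : ℕ, Integrable (fun η => 1 + ∑ x ∈ Finset.Icc ⌊z⌋ (⌈z + w⌉ + m),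
        Real.exp (V μ s η ((l : ℤ) - 1, x) 1)) (law μ) := fun l => (integrable_const _).add (i0 l)
    have i2 : Integrable (fun η => ∑ l ∈ Finset.range (m + 1), (1 + ∑ x ∈ Finset.Icc ⌊z⌋ (⌈z + w⌉ + m),
        Real.exp (V μ s η ((l : ℤ) - 1, x) 1))) (law μ) := integrable_finsetSum _ fun l _ => i1 l
    have i3 : Integrable (fun η => 1 + ∑ l ∈ Finset.range (m + 1), (1 + ∑ x ∈ Finset.Icc ⌊z⌋ (⌈z + w⌉ + m),
        Real.exp (V μ s η ((l : ℤ) - 1, x) 1))) (law μ) := (integrable_const (1 : ℝ)).add i2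
    have g1 := integral_mono (hOS.exp_int em) i3 hexpO
    have g2 : ∫ η, (1 + ∑ l ∈ Finset.range (m + 1), (1 + ∑ x ∈ Finset.Icc ⌊z⌋ (⌈z + w⌉ + m),
        Real.exp (V μ s η ((l : ℤ) - 1, x) 1))) ∂(law μ) =
        1 + ∑ l ∈ Finset.range (m + 1), (1 + ((Finset.Icc ⌊z⌋ (⌈z + w⌉ + m)).card : ℝ) * a1) := by
      rw [integral_add (integrable_const _) i2, integral_finsetSum _ fun l _ => i1 l]
      congr 1
      · simp
      · refine Finset.sum_congr rfl fun l _ => ?_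
        rw [integral_add (integrable_const _) (i0 l), integral_finsetSum _ fun x _ => hVi _]
        congr 1
        · simp
        · rw [Finset.sum_congr rfl (g := fun _ => a1) fun x _ => ?_, Finset.sum_const, nsmul_eq_mul]
          rw [ha1]
          exact integral_V_fun Real.measurable_exp _ _
    have g3 : ((Finset.Icc ⌊z⌋ (⌈z + w⌉ + m)).card : ℝ) ≤ 5 * n := by
      rw [Int.card_Icc]
      have k1 : (⌈z + w⌉ : ℝ) < z + w + 1 := Int.ceil_lt_add_one _
      have k2 : z - 1 < (⌊z⌋ : ℝ) := Int.sub_one_lt_floor z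
      have k3 : (((⌈z + w⌉ + m + 1 - ⌊z⌋).toNat : ℕ) : ℝ) = ((max (⌈z + w⌉ + m + 1 - ⌊z⌋) 0 : ℤ) : ℝ) := by
        have k4 : (((⌈z + w⌉ + m + 1 - ⌊z⌋).toNat : ℕ) : ℤ) = max (⌈z + w⌉ + m + 1 - ⌊z⌋) 0 := by omega
        rw [← k4]
        exact (Int.cast_natCast _).symm
      rw [k3, Int.cast_max]
      push_cast
      refine max_le ?_ (by positivity)
      linarith
    have g4 : (((m + 1 : ℕ)) : ℝ) ≤ 2 * n := by
      push_cast
      linarith
    rw [g2] at g1
    rw [Finset.sum_const, Finset.card_range, nsmul_eq_mul] at g1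
    refine g1.trans ?_
    have g5 : ((Finset.Icc ⌊z⌋ (⌈z + w⌉ + m)).card : ℝ) * a1 ≤ 5 * n * a1 := mul_le_mul_of_nonneg_right g3 ha10
    have g6 : ((m + 1 : ℕ) : ℝ) * (1 + ((Finset.Icc ⌊z⌋ (⌈z + w⌉ + m)).card : ℝ) * a1) ≤
        2 * n * (1 + 5 * n * a1) := by
      refine mul_le_mul g4 (by linarith) ?_ (by positivity)
      have : 0 ≤ ((Finset.Icc ⌊z⌋ (⌈z + w⌉ + m)).card : ℝ) * a1 := by positivity
      linarith
    rw [hA]
    nlinarith
  -- measurability
  have hT : ∀ (h : ℝ) (a : Pt) (k : ℕ), Measurable fun η => T μ s v h η a k := fun h a k => by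
    unfold T
    exact (measurable_V a k).add_const _
  have hHm : ∀ l : ℕ, MeasurableSet {η | Ht μ s v w h0 h1 Y z m l η} := by
    intro l
    have e : {η | Ht μ s v w h0 h1 Y z m l η} = ⋃ q' ∈ Bx v w z m, {η | q'.1.1 + q'.2 = l ∧
        (Y ≤ T μ s v h0 η ((q'.1.1 : ℤ), q'.1.2) q'.2 ∨ Y ≤ T μ s v h1 η ((q'.1.1 : ℤ), q'.1.2) q'.2)} := by
      ext η
      simp only [Ht, Set.mem_ofPred_eq, Set.mem_iUnion, exists_prop]
    rw [e]
    refine Finset.measurableSet_biUnion _ fun q' _ => ?_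
    by_cases hl : q'.1.1 + q'.2 = l
    · have e2 : {η : Env | q'.1.1 + q'.2 = l ∧
          (Y ≤ T μ s v h0 η ((q'.1.1 : ℤ), q'.1.2) q'.2 ∨ Y ≤ T μ s v h1 η ((q'.1.1 : ℤ), q'.1.2) q'.2)} =
          {η | Y ≤ T μ s v h0 η ((q'.1.1 : ℤ), q'.1.2) q'.2} ∪ {η | Y ≤ T μ s v h1 η ((q'.1.1 : ℤ), q'.1.2) q'.2} := by
        ext η
        simp only [Set.mem_ofPred_eq, Set.mem_union, hl, true_and]
      rw [e2]
      exact (measurableSet_le measurable_const (hT _ _ _)).union (measurableSet_le measurable_const (hT _ _ _))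
    · have e2 : {η : Env | q'.1.1 + q'.2 = l ∧
          (Y ≤ T μ s v h0 η ((q'.1.1 : ℤ), q'.1.2) q'.2 ∨ Y ≤ T μ s v h1 η ((q'.1.1 : ℤ), q'.1.2) q'.2)} = ∅ := by
        ext η
        simp only [Set.mem_ofPred_eq, hl, false_and, Set.mem_empty_iff_false]
      rw [e2]
      exact MeasurableSet.empty
  obtain ⟨p, hp⟩ : ∃ p : Env → Prop, p = fun η => ∃ l ∈ Finset.range (m + 1), Ht μ s v w h0 h1 Y z m l η := ⟨_, rfl⟩
  have hpm : MeasurableSet {η | p η} := by
    have e : {η | p η} = ⋃ l ∈ Finset.range (m + 1), {η | Ht μ s v w h0 h1 Y z m l η} := by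
      ext η
      simp only [hp, Set.mem_ofPred_eq, Set.mem_iUnion, exists_prop]
    rw [e]
    exact Finset.measurableSet_biUnion _ fun l _ => hHm l
  have hJint : ∫ η, io (p η) ∂(law μ) = (law μ).real {η | p η} := by
    have e : (fun η => io (p η)) = {η | p η}.indicator fun _ => (1 : ℝ) := by
      funext η
      by_cases h : p η
      · rw [io_of h, Set.indicator_of_mem (show η ∈ {η | p η} from h)]
      · rw [io_not h, Set.indicator_of_notMem (show η ∉ {η | p η} from h)]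
    rw [e, integral_indicator hpm]
    simp
  have hJi : Integrable (fun η => io (p η)) (law μ) := by
    refine (integrable_const (1 : ℝ)).mono' (measurable_io hpm).aestronglyMeasurable
      (Eventually.of_forall fun η => ?_)
    rw [Real.norm_eq_abs, abs_of_nonneg (io_nonneg _)]
    exact io_le_one _
  -- the pointwise bound
  obtain ⟨Λ, hΛ⟩ : ∃ Λ : ℝ, Λ = A ^ θ := ⟨_, rfl⟩
  have hΛ0 : 0 < Λ := by rw [hΛ]; exact Real.rpow_pos_of_pos hA0 _
  have hpt : ∀ η, ∑ l ∈ Finset.range (m + 1), io (Fh μ s v w h0 h1 Y z m l η) *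
      Real.exp (θ * (Ov μ s w z m ((l : ℤ) - 1) η + 1)) ≤
      Real.exp θ * Λ * (2 * io (p η) + (1 + Real.exp (O η) / A) * (2 / 2 ^ q)) := by
    intro η
    have k1 : ∑ l ∈ Finset.range (m + 1), io (Fh μ s v w h0 h1 Y z m l η) *
        Real.exp (θ * (Ov μ s w z m ((l : ℤ) - 1) η + 1)) ≤ io (p η) * Real.exp (θ * (O η + 1)) := by
      have k2 : ∀ l ∈ Finset.range (m + 1), io (Fh μ s v w h0 h1 Y z m l η) *
          Real.exp (θ * (Ov μ s w z m ((l : ℤ) - 1) η + 1)) ≤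
          io (Fh μ s v w h0 h1 Y z m l η) * Real.exp (θ * (O η + 1)) := by
        intro l hl
        refine mul_le_mul_of_nonneg_left (Real.exp_le_exp.2 (mul_le_mul_of_nonneg_left ?_ hθ)) (io_nonneg _)
        have k3 : Ov μ s w z m ((l : ℤ) - 1) η ≤ O η := by
          rw [hO]
          exact le_fold (fun l : ℕ => Ov μ s w z m ((l : ℤ) - 1) η) hl
        linarith
      refine (Finset.sum_le_sum k2).trans (le_of_eq ?_)
      rw [← Finset.sum_mul]
      congr 1
      rw [hp]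
      exact sum_Fi (Finset.range (m + 1)) (r := (id : ℕ → ℕ)) Function.injective_id
        fun l : ℕ => Ht μ s v w h0 h1 Y z m l η
    refine k1.trans ?_
    obtain ⟨ζ, hζ⟩ : ∃ ζ, ζ = Real.exp (θ * O η) / Λ := ⟨_, rfl⟩
    have hζ0 : 0 < ζ := by rw [hζ]; positivity
    have k4 : Real.exp (θ * (O η + 1)) = Real.exp θ * Λ * ζ := by
      rw [hζ, mul_add, mul_one, Real.exp_add]
      field_simp
    have k5 : io (p η) * ζ ≤ 2 * io (p η) + ζ ^ q * (2 / 2 ^ q) := by
      have hJ0 := io_nonneg (p η)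
      have hJ1 := io_le_one (p η)
      rcases le_or_gt ζ 2 with h | h
      · have k6 : 0 ≤ ζ ^ q * (2 / 2 ^ q) := by positivity
        nlinarith
      · have k6 : ζ ≤ ζ ^ q * (2 / 2 ^ q) := by
          have k7 : 1 ≤ (ζ / 2) ^ (q - 1) := one_le_pow₀ (by linarith)
          have k8 : ζ ^ q * (2 / 2 ^ q) = ζ * (ζ / 2) ^ (q - 1) := by
            obtain ⟨r, rfl⟩ : ∃ r, q = r + 1 := ⟨q - 1, by omega⟩
            rw [Nat.add_sub_cancel, div_pow, pow_succ, pow_succ]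
            field_simp
          rw [k8]
          nlinarith
        nlinarith
    have k9 : ζ ^ q ≤ 1 + Real.exp (O η) / A := by
      have e1 : ζ ^ q = (Real.exp (O η) / A) ^ (q * θ) := by
        rw [hζ, hΛ, div_pow, Real.div_rpow (Real.exp_pos _).le hA0.le, ← Real.exp_nat_mul, ← Real.exp_mul,
          ← Real.rpow_natCast, ← Real.rpow_mul hA0.le]
        congr 2
        · ring
        · ring
      rw [e1]
      exact rpow_le_aux (by positivity) (by positivity) hqθ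
    rw [k4]
    have k10 : io (p η) * (Real.exp θ * Λ * ζ) = Real.exp θ * Λ * (io (p η) * ζ) := by ring
    rw [k10]
    refine mul_le_mul_of_nonneg_left (k5.trans ?_) (by positivity)
    have k11 : ζ ^ q * (2 / 2 ^ q) ≤ (1 + Real.exp (O η) / A) * (2 / 2 ^ q) :=
      mul_le_mul_of_nonneg_right k9 (by positivity)
    linarith
  have j1 : Integrable (fun η => 2 * io (p η)) (law μ) := hJi.const_mul 2
  have j2 : Integrable (fun η => 1 + Real.exp (O η) / A) (law μ) :=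
    (integrable_const (1 : ℝ)).add ((hOS.exp_int em).div_const A)
  have j3 : Integrable (fun η => (1 + Real.exp (O η) / A) * (2 / 2 ^ q)) (law μ) := j2.mul_const _
  have j4 : Integrable (fun η => 2 * io (p η) + (1 + Real.exp (O η) / A) * (2 / 2 ^ q)) (law μ) := j1.add j3
  refine (integral_mono_of_nonneg (Eventually.of_forall fun η => ?_) (j4.const_mul (Real.exp θ * Λ))
    (Eventually.of_forall hpt)).trans ?_
  · exact Finset.sum_nonneg fun l _ => mul_nonneg (io_nonneg _) (Real.exp_pos _).le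
  rw [integral_const_mul, integral_add j1 j3, integral_const_mul, integral_mul_const,
    integral_add (integrable_const _) ((hOS.exp_int em).div_const A), integral_const, probReal_univ, one_smul,
    integral_div, hJint, ← hA, ← hΛ, hp]
  refine mul_le_mul_of_nonneg_left ?_ (by positivity)
  have l1 : (∫ η, Real.exp (O η) ∂(law μ)) / A ≤ 1 := by
    rw [div_le_one hA0]
    exact hintO
  have l2 : (1 + (∫ η, Real.exp (O η) ∂(law μ)) / A) * (2 / 2 ^ q) ≤ 2 * (2 / 2 ^ q) :=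
    mul_le_mul_of_nonneg_right (by linarith) (by positivity)
  have l3 : 2 * (2 / 2 ^ q) = (4 : ℝ) / 2 ^ q := by ring
  linarith

end Pool.Agent.W_7d29a1_L
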