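import Pool.Agent.W_7d29a1_L.LsDefs

/-!
L*: the probability of a hit: pigeonhole over the dyadic levels.
-/

namespace Pool.Agent.W_7d29a1_L

open MeasureTheory ProbabilityTheory Filter Topology
open Pool.Agent.W_7d29a1_F

variable {μ : Measure ℝ}

private theorem LsA5_layers {g D : ℝ} (hD : 0 < D) (hg : 0 ≤ g) (r : ℕ) :
    (∑ i ∈ Finset.Icc 1 r, 2 ^ i * D * io (2 ^ i * D ≤ g) ≤ 2 * g) ∧
      (∑ i ∈ Finset.Icc 1 r, 2 ^ i * D * io (2 ^ i * D ≤ g) ≤ 2 ^ (r + 1) * D) := by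
  induction r with
  | zero =>
    simp only [Finset.Icc_self, Nat.lt_one_iff, Finset.Icc_eq_empty_of_lt, Nat.zero_lt_one, Finset.sum_empty]
    exact ⟨by linarith, by positivity⟩
  | succ r ih =>
    obtain ⟨h1, h2⟩ := ih
    rw [Finset.sum_Icc_succ_top (by omega)]
    have hp : (2 : ℝ) ^ (r + 1 + 1) = 2 * 2 ^ (r + 1) := by ring
    have h2p : (0 : ℝ) < 2 ^ (r + 1) * D := by positivity
    by_cases hc : 2 ^ (r + 1) * D ≤ g
    · rw [io_of hc, hp]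
      constructor
      · linarith
      · linarith
    · rw [io_not hc, hp]
      constructor
      · linarith
      · linarith

variable [IsProbabilityMeasure μ]

private theorem LsA5_real {G : Env → ℝ} (hG : Measurable G) (c : ℝ) :
    ∫ η, io (c ≤ G η) ∂(law μ) = (law μ).real {η | c ≤ G η} := by
  have hm : MeasurableSet {η : Env | c ≤ G η} := measurableSet_le measurable_const hG
  have e : (fun η => io (c ≤ G η)) = Set.indicator {η | c ≤ G η} fun _ => (1 : ℝ) := by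
    funext η
    by_cases hp : c ≤ G η
    · rw [io_of hp, Set.indicator_of_mem (show η ∈ {η | c ≤ G η} from hp)]
    · rw [io_not hp, Set.indicator_of_notMem (show η ∉ {η | c ≤ G η} from hp)]
  rw [e, integral_indicator hm, setIntegral_const, smul_eq_mul, mul_one]

private theorem LsA5_int {G : Env → ℝ} (hG : Measurable G) (c : ℝ) :
    Integrable (fun η => io (c ≤ G η)) (law μ) := by
  have hm : MeasurableSet {η : Env | c ≤ G η} := measurableSet_le measurable_const hG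
  refine Integrable.of_bound (measurable_io hm).aestronglyMeasurable 1 (Filter.Eventually.of_forall fun η => ?_)
  rw [Real.norm_eq_abs, abs_of_nonneg (io_nonneg _)]
  exact io_le_one _

private theorem LsA5_sum {G : Env → ℝ} {D : ℝ} (hD : 0 < D) (m : Measurable G) (n : ∀ η, 0 ≤ G η)
    (i : Integrable G (law μ)) (b : ∫ η, G η ∂(law μ) ≤ D) (r : ℕ) :
    ∑ i ∈ Finset.Icc 1 r, 2 ^ i * D * (law μ).real {η | 2 ^ i * D ≤ G η} ≤ 2 * D := by
  have h1 : ∑ i ∈ Finset.Icc 1 r, 2 ^ i * D * (law μ).real {η | 2 ^ i * D ≤ G η} =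
      ∫ η, ∑ i ∈ Finset.Icc 1 r, 2 ^ i * D * io (2 ^ i * D ≤ G η) ∂(law μ) := by
    rw [integral_finsetSum _ fun i _ => (LsA5_int m _).const_mul _]
    refine Finset.sum_congr rfl fun i _ => ?_
    rw [integral_const_mul, LsA5_real m]
  rw [h1]
  calc ∫ η, ∑ i ∈ Finset.Icc 1 r, 2 ^ i * D * io (2 ^ i * D ≤ G η) ∂(law μ) ≤ ∫ η, 2 * G η ∂(law μ) :=
        integral_mono (integrable_finsetSum _ fun i _ => (LsA5_int m _).const_mul _) (i.const_mul 2)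
          fun η => (LsA5_layers hD (n η) r).1
    _ ≤ 2 * D := by
        rw [integral_const_mul]
        linarith

/-- Pigeonhole. PROOF. `∑_(1 ≤ i ≤ r) 2 ^ i D 1_(2 ^ i D ≤ g) ≤ 2 g` for `g ≥ 0`; integrate for `G0` and `G1`:
`∑_i 2 ^ i D (P(G0 ≥ 2 ^ i D) + P(G1 ≥ 2 ^ i D)) ≤ 2 (∫ G0 + ∫ G1) ≤ 4 D`; one of the `r` terms is `≤ 4 D / r`. -/
theorem pigeon {G0 G1 : Env → ℝ} {D : ℝ} (hD : 0 < D) (m0 : Measurable G0) (m1 : Measurable G1)
    (n0 : ∀ η, 0 ≤ G0 η) (n1 : ∀ η, 0 ≤ G1 η) (i0 : Integrable G0 (law μ)) (i1 : Integrable G1 (law μ))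
    (b0 : ∫ η, G0 η ∂(law μ) ≤ D) (b1 : ∫ η, G1 η ∂(law μ) ≤ D) {r : ℕ} (hr : 1 ≤ r) :
    ∃ i : ℕ, 1 ≤ i ∧ i ≤ r ∧
      2 ^ i * D * ((law μ).real {η | 2 ^ i * D ≤ G0 η} + (law μ).real {η | 2 ^ i * D ≤ G1 η}) ≤ 4 * D / r := by
  have s0 := LsA5_sum hD m0 n0 i0 b0 r
  have s1 := LsA5_sum hD m1 n1 i1 b1 r
  by_contra hcon
  push Not at hcon
  have h1 : ∑ _i ∈ Finset.Icc 1 r, 4 * D / (r : ℝ) < ∑ i ∈ Finset.Icc 1 r,
      2 ^ i * D * ((law μ).real {η | 2 ^ i * D ≤ G0 η} + (law μ).real {η | 2 ^ i * D ≤ G1 η}) := by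
    refine Finset.sum_lt_sum_of_nonempty ⟨1, Finset.mem_Icc.2 ⟨le_rfl, hr⟩⟩ fun i hi => ?_
    obtain ⟨h2, h3⟩ := Finset.mem_Icc.1 hi
    exact hcon i h2 h3
  have hr0 : (0 : ℝ) < r := by exact_mod_cast hr
  have h2 : ∑ _i ∈ Finset.Icc 1 r, 4 * D / (r : ℝ) = 4 * D := by
    rw [Finset.sum_const, Nat.card_Icc, nsmul_eq_mul]
    have : ((r + 1 - 1 : ℕ) : ℝ) = r := by simp
    rw [this]
    field_simp
  have h3 : ∑ i ∈ Finset.Icc 1 r,
      2 ^ i * D * ((law μ).real {η | 2 ^ i * D ≤ G0 η} + (law μ).real {η | 2 ^ i * D ≤ G1 η}) =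
      ∑ i ∈ Finset.Icc 1 r, 2 ^ i * D * (law μ).real {η | 2 ^ i * D ≤ G0 η} +
        ∑ i ∈ Finset.Icc 1 r, 2 ^ i * D * (law μ).real {η | 2 ^ i * D ≤ G1 η} := by
    rw [← Finset.sum_add_distrib]
    exact Finset.sum_congr rfl fun i _ => by ring
  linarith

/-- The probability of a hit. PROOF. `pigeon` with `D := 2 A`; `u = 2 ^ i D`, `Y := u + D`. A hit of `T^{h'}` at the level `l`
is a luck `V μ (s + h') ≥ Y - n' kap ≥ Y - A` with `n' ≤ n` (if `kap ≤ 0` then `n' kap ≤ 0 ≤ A`, otherwise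
`n' kap ≤ n kap ≤ A`); the box of `n' ≤ n` is contained in the box of `n` (`mem_Bx`). `P(hit) ≤ 4 (P(G0 ≥ Y - 2 A) + P(G1 ≥ Y - 2 A))
≤ 4 * 4 D / (r u)`, and `Y ≤ (3 / 2) u`. -/
theorem hit_prob {s v w h0 h1 A : ℝ} {n r : ℕ} (hv0 : 0 ≤ v) (hv1 : v ≤ 1) (hA : 1 ≤ A) (hr : 1 ≤ r)
    (H0 : HitV μ (s + h0) v w n A) (H1 : HitV μ (s + h1) v w n A)
    (d0 : (n : ℝ) * kap μ s v h0 ≤ A) (d1 : (n : ℝ) * kap μ s v h1 ≤ A) :
    ∃ Y : ℝ, 6 * A ≤ Y ∧ Y ≤ 3 * 2 ^ r * A ∧ ∀ (n' : ℕ) (z : ℝ), n' ≤ n →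
      Y * (law μ).real {η | ∃ l ∈ Finset.range (n' + 1), Ht μ s v w h0 h1 Y z n' l η} ≤ 48 * A / r := by
  obtain ⟨G0, m0, n0, i0, b0, P0⟩ := H0
  obtain ⟨G1, m1, n1, i1, b1, P1⟩ := H1
  obtain ⟨i, hi1, hi2, hi⟩ := pigeon (μ := μ) (D := 2 * A) (by linarith) m0 m1 n0 n1 i0 i1 (by linarith) (by linarith) hr
  obtain ⟨u, hu⟩ : ∃ u : ℝ, u = 2 ^ i * (2 * A) := ⟨_, rfl⟩
  rw [← hu] at hi
  have h2i : (2 : ℝ) ≤ 2 ^ i := by
    calc (2 : ℝ) = 2 ^ 1 := (pow_one _).symm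
      _ ≤ 2 ^ i := pow_le_pow_right₀ (by norm_num) hi1
  have hir : (2 : ℝ) ^ i ≤ 2 ^ r := pow_le_pow_right₀ (by norm_num) hi2
  have hu1 : 4 * A ≤ u := by
    rw [hu]
    nlinarith
  have hu2 : u ≤ 2 ^ r * (2 * A) := by
    rw [hu]
    exact mul_le_mul_of_nonneg_right hir (by linarith)
  refine ⟨u + 2 * A, by linarith, by nlinarith, fun n' z hn' => ?_⟩
  have hkap : ∀ (k : ℝ) (j : ℕ), j ≤ n → (n : ℝ) * k ≤ A → (j : ℝ) * k ≤ A := by
    intro k j hj hk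
    have hjn : (j : ℝ) ≤ n := by exact_mod_cast hj
    have hj0 : (0 : ℝ) ≤ j := Nat.cast_nonneg _
    rcases le_total k 0 with h | h
    · have := mul_nonpos_of_nonneg_of_nonpos hj0 h
      linarith
    · exact (mul_le_mul_of_nonneg_right hjn h).trans hk
  have hsub : {η | ∃ l ∈ Finset.range (n' + 1), Ht μ s v w h0 h1 (u + 2 * A) z n' l η} ⊆
      {η | ∃ q ∈ Bx v w z n, u + A ≤ V μ (s + h0) η ((q.1.1 : ℤ), q.1.2) q.2} ∪
        {η | ∃ q ∈ Bx v w z n, u + A ≤ V μ (s + h1) η ((q.1.1 : ℤ), q.1.2) q.2} := by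
    rintro η ⟨l, _, q, hq, _, hh⟩
    obtain ⟨q1, q2, q3⟩ := (mem_Bx hv0 hv1).1 hq
    have hqn : q ∈ Bx v w z n := (mem_Bx hv0 hv1).2 ⟨q1.trans hn', q2, q3⟩
    have hq2 : q.2 ≤ n := by omega
    rcases hh with h | h
    · left
      refine ⟨q, hqn, ?_⟩
      unfold T at h
      have := hkap _ _ hq2 d0
      linarith
    · right
      refine ⟨q, hqn, ?_⟩
      unfold T at h
      have := hkap _ _ hq2 d1
      linarith
  have hP : (law μ).real {η | ∃ l ∈ Finset.range (n' + 1), Ht μ s v w h0 h1 (u + 2 * A) z n' l η} ≤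
      4 * ((law μ).real {η | u ≤ G0 η} + (law μ).real {η | u ≤ G1 η}) := by
    have e1 := P0 z (u + A) (by linarith)
    have e2 := P1 z (u + A) (by linarith)
    have e3 : u + A - A = u := by ring
    rw [e3] at e1 e2
    have e4 := (measureReal_mono (μ := law μ) hsub (measure_ne_top _ _)).trans (measureReal_union_le _ _)
    linarith
  have hu0 : 0 < u := by linarith
  have hpos : 0 ≤ (law μ).real {η | u ≤ G0 η} + (law μ).real {η | u ≤ G1 η} :=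
    add_nonneg measureReal_nonneg measureReal_nonneg
  have hY0 : 0 ≤ u + 2 * A := by linarith
  calc (u + 2 * A) * (law μ).real {η | ∃ l ∈ Finset.range (n' + 1), Ht μ s v w h0 h1 (u + 2 * A) z n' l η}
      ≤ (u + 2 * A) * (4 * ((law μ).real {η | u ≤ G0 η} + (law μ).real {η | u ≤ G1 η})) :=
        mul_le_mul_of_nonneg_left hP hY0
    _ ≤ (3 / 2 * u) * (4 * ((law μ).real {η | u ≤ G0 η} + (law μ).real {η | u ≤ G1 η})) :=
        mul_le_mul_of_nonneg_right (by linarith) (by linarith)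
    _ = 6 * (u * ((law μ).real {η | u ≤ G0 η} + (law μ).real {η | u ≤ G1 η})) := by ring
    _ ≤ 6 * (4 * (2 * A) / r) := mul_le_mul_of_nonneg_left hi (by norm_num)
    _ = 48 * A / r := by ring

end Pool.Agent.W_7d29a1_L
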