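import Pool.Agent.W_7d29a1_L.LsA3
import Pool.Agent.W_7d29a1_L.LsA4
import Pool.Agent.W_7d29a1_L.LsA5

/-!
L*: the restart with the probability of a hit as input (`core`), and THEOREM B.
-/

namespace Pool.Agent.W_7d29a1_L

open MeasureTheory ProbabilityTheory Filter Topology
open Pool.Agent.W_7d29a1_F

variable {μ : Measure ℝ} [IsProbabilityMeasure μ]

private theorem exp_sixth : Real.exp (1 / 6) ≤ 6 / 5 := by
  have e2 := Real.exp_bound_div_one_sub_of_interval (x := 1 / 6) (by norm_num) (by norm_num)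
  calc Real.exp (1 / 6) ≤ 1 / (1 - 1 / 6) := e2
    _ = 6 / 5 := by norm_num

/-- The sum over the cells with `θ Y = 1`. -/
private theorem sum_cells {θ Y κ : ℝ} (hθ : 0 < θ) (hθY : θ * Y = 1) (hκ : 0 < κ) (m : ℕ) :
    ∑ j ∈ Finset.Icc (-((m : ℤ) + 2)) ((m : ℤ) + 2), Real.exp (-(θ * far κ j)) ≤ 5 + 2 * (Y / κ) := by
  have hx : 0 < θ * κ := by positivity
  have h1 := sum_far hx (m + 2)
  have e1 : (((m + 2 : ℕ) : ℤ)) = (m : ℤ) + 2 := by push_cast; ring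
  rw [e1] at h1
  have e2 : ∑ j ∈ Finset.Icc (-((m : ℤ) + 2)) ((m : ℤ) + 2), Real.exp (-(θ * far κ j)) =
      ∑ j ∈ Finset.Icc (-((m : ℤ) + 2)) ((m : ℤ) + 2), Real.exp (-(θ * κ * max (|(j : ℝ)| - 1) 0)) := by
    refine Finset.sum_congr rfl fun j _ => ?_
    unfold far
    rw [mul_assoc]
  rw [e2]
  refine h1.trans (le_of_eq ?_)
  have e3 : 2 / (θ * κ) = 2 * (Y / κ) := by
    rw [div_eq_iff hx.ne']
    have h2 : 2 * (Y / κ) * (θ * κ) = 2 * (θ * Y) * (κ / κ) := by ring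
    rw [h2, hθY, div_self hκ.ne']
    ring
  rw [e3]

/-- The restart with the probability of a hit as input. PROOF. `θ = 1 / Y`; induction on `m ≤ n`: `∫ exp (θ Mh) ≤ 4 e`
for all `z`, by `restart` (`B = 4 e`), `over_err` with `q` large (`R`, `Λ`), `sum_far` with `x = θ κ`; `Λ` is a bound
of `(A0 n ^ 2) ^ θ`, from `c0 (1 + log n) ≤ Y`; `p0 = 1 / (56 Λ)`. -/
theorem core (em : Pool.Agent.W_7d29a1_h47.EM μ) (s : ℝ) {c0 : ℝ} (hc0 : 0 < c0) :
    ∃ p0 : ℝ, 0 < p0 ∧ ∀ R : ℝ, ∃ K : ℝ, 6 ≤ K ∧ ∀ (n : ℕ) (v w h0 h h1 κ Y : ℝ), 1 ≤ n → w ≤ n →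
      Nm v w h0 h h1 κ → 0 < κ → K ≤ Y → c0 * (1 + Real.log n) ≤ Y → 5 + 2 * (Y / κ) ≤ R →
      (∀ (m : ℕ) (z : ℝ), m ≤ n → (5 + 2 * (Y / κ)) *
        (law μ).real {η | ∃ l ∈ Finset.range (m + 1), Ht μ s v w h0 h1 Y z m l η} ≤ p0) →
      ∀ z : ℝ, ∫ η, Real.exp (Mh μ s v h w z n η / Y) ∂(law μ) ≤ 4 * Real.exp 1 := by
  obtain ⟨A0, hA0, herr⟩ := over_err em s
  have hlA : 0 ≤ Real.log A0 := Real.log_nonneg hA0
  -- the bound of `(A0 n ^ 2) ^ θ`
  obtain ⟨Λ, hΛ⟩ : ∃ Λ : ℝ, Λ = Real.exp ((Real.log A0 + 2) / c0) := ⟨_, rfl⟩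
  have hΛ0 : 0 < Λ := by
    rw [hΛ]
    exact Real.exp_pos _
  refine ⟨1 / (56 * Λ), by positivity, ?_⟩
  intro R
  obtain ⟨q, hq⟩ : ∃ q : ℕ, max (112 * (R * Λ)) 1 < 2 ^ q := pow_unbounded_of_one_lt _ one_lt_two
  have hqR : 112 * (R * Λ) < 2 ^ q := lt_of_le_of_lt (le_max_left _ _) hq
  have hq1 : 1 ≤ q := by
    rcases Nat.eq_zero_or_pos q with h0 | h0
    · rw [h0, pow_zero] at hq
      exact absurd (le_max_right (112 * (R * Λ)) 1) (not_le.2 hq)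
    · exact h0
  refine ⟨max 6 q, le_max_left _ _, ?_⟩
  intro n v w a h b κ Y hn hwn N hκ hKY hYn hR hP z
  have hY6 : 6 ≤ Y := (le_max_left _ _).trans hKY
  have hYq : (q : ℝ) ≤ Y := (le_max_right _ _).trans hKY
  have hY0 : 0 < Y := by linarith
  have hnr : (1 : ℝ) ≤ n := by exact_mod_cast hn
  have hln : 0 ≤ Real.log n := Real.log_nonneg hnr
  obtain ⟨θ, hθ⟩ : ∃ θ : ℝ, θ = 1 / Y := ⟨_, rfl⟩
  have hθ0 : 0 < θ := by rw [hθ]; positivity
  have hθY : θ * Y = 1 := by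
    rw [hθ]
    exact one_div_mul_cancel hY0.ne'
  have hθ6 : θ ≤ 1 / 6 := by
    rw [hθ]
    exact one_div_le_one_div_of_le (by norm_num) hY6
  have hqθ : (q : ℝ) * θ ≤ 1 := by
    have h1 : (q : ℝ) * θ ≤ Y * θ := mul_le_mul_of_nonneg_right hYq hθ0.le
    linarith
  have hX : (A0 * (n : ℝ) ^ 2) ^ θ ≤ Λ := by
    have hpos : 0 < A0 * (n : ℝ) ^ 2 := by positivity
    rw [Real.rpow_def_of_pos hpos, hΛ]
    refine Real.exp_le_exp.2 ?_
    have e1 : Real.log (A0 * (n : ℝ) ^ 2) = Real.log A0 + 2 * Real.log n := by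
      rw [Real.log_mul (by linarith) (by positivity), Real.log_pow]
      push_cast
      ring
    rw [e1, le_div_iff₀ hc0]
    have e3 : θ * (c0 * (1 + Real.log n)) ≤ 1 := by
      have h1 := mul_le_mul_of_nonneg_left hYn hθ0.le
      linarith
    have e4 : Real.log A0 + 2 * Real.log n ≤ (Real.log A0 + 2) * (1 + Real.log n) := by
      have := mul_nonneg hlA hln
      nlinarith
    have e5 : (Real.log A0 + 2 * Real.log n) * (θ * c0) ≤ (Real.log A0 + 2) * (1 + Real.log n) * (θ * c0) :=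
      mul_le_mul_of_nonneg_right e4 (by positivity)
    have e6 : (Real.log A0 + 2) * (θ * (c0 * (1 + Real.log n))) ≤ (Real.log A0 + 2) * 1 :=
      mul_le_mul_of_nonneg_left e3 (by linarith)
    calc (Real.log A0 + 2 * Real.log n) * θ * c0 = (Real.log A0 + 2 * Real.log n) * (θ * c0) := by ring
      _ ≤ (Real.log A0 + 2) * (1 + Real.log n) * (θ * c0) := e5
      _ = (Real.log A0 + 2) * (θ * (c0 * (1 + Real.log n))) := by ring
      _ ≤ (Real.log A0 + 2) * 1 := e6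
      _ = Real.log A0 + 2 := mul_one _
  have hX0 : 0 ≤ (A0 * (n : ℝ) ^ 2) ^ θ := Real.rpow_nonneg (by positivity) _
  have he1 : Real.exp 1 < 2.7182818286 := Real.exp_one_lt_d9
  have he0 : 0 < Real.exp 1 := Real.exp_pos 1
  have hexpθ : Real.exp θ ≤ 6 / 5 := (Real.exp_le_exp.2 hθ6).trans exp_sixth
  have hexpY : Real.exp (θ * (Y + Real.log 2)) ≤ Real.exp 1 * (6 / 5) := by
    have e1 : θ * (Y + Real.log 2) = 1 + θ * Real.log 2 := by
      rw [mul_add, hθY]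
    rw [e1, Real.exp_add]
    refine mul_le_mul_of_nonneg_left ?_ he0.le
    refine (Real.exp_le_exp.2 ?_).trans exp_sixth
    have h1 : Real.log 2 ≤ 1 := by
      have := Real.log_two_lt_d9
      linarith
    have h2 : 0 ≤ Real.log 2 := Real.log_nonneg (by norm_num)
    nlinarith
  obtain ⟨u, hu⟩ : ∃ u : ℝ, u = 5 + 2 * (Y / κ) := ⟨_, rfl⟩
  have hu0 : 0 < u := by
    rw [hu]
    positivity
  rw [← hu] at hR
  have h2q : (0 : ℝ) < 2 ^ q := by positivity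
  have key : ∀ m : ℕ, m ≤ n → ∀ z : ℝ, ∫ η, Real.exp (θ * Mh μ s v h w z m η) ∂(law μ) ≤ 4 * Real.exp 1 := by
    intro m
    induction m using Nat.strong_induction_on with
    | _ m ih =>
      intro hm z
      have r1 := restart (n := m) (z := z) em N hY0 hθ0.le (B := 4 * Real.exp 1) (by positivity)
        (fun n' hn' z' => ih n' hn' (hn'.le.trans hm) z')
      have r2 := herr n m q v w a b Y z θ hn hm hq1 N.w1 hwn hθ0.le hqθ
      have r3 := hP m z hm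
      have r4 := sum_cells hθ0 hθY hκ m
      obtain ⟨P, hPdef⟩ : ∃ P : ℝ, P = (law μ).real {η | ∃ l ∈ Finset.range (m + 1), Ht μ s v w a b Y z m l η} := ⟨_, rfl⟩
      have hP0 : 0 ≤ P := by rw [hPdef]; exact measureReal_nonneg
      obtain ⟨OE, hOE⟩ : ∃ OE : ℝ, OE = ∫ η, ∑ l ∈ Finset.range (m + 1), io (Fh μ s v w a b Y z m l η) *
        Real.exp (θ * (Ov μ s w z m ((l : ℤ) - 1) η + 1)) ∂(law μ) := ⟨_, rfl⟩
      have hOE0 : 0 ≤ OE := by
        rw [hOE]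
        exact integral_nonneg fun η => Finset.sum_nonneg fun l _ => mul_nonneg (io_nonneg _) (Real.exp_pos _).le
      obtain ⟨S, hS⟩ : ∃ S : ℝ, S = ∑ j ∈ Finset.Icc (-((m : ℤ) + 2)) ((m : ℤ) + 2),
        Real.exp (-(θ * far κ j)) := ⟨_, rfl⟩
      have hS0 : 0 ≤ S := by
        rw [hS]
        exact Finset.sum_nonneg fun j _ => (Real.exp_pos _).le
      rw [← hPdef, ← hu] at r3
      rw [← hPdef, ← hOE] at r2
      rw [← hOE, ← hS] at r1
      rw [← hS, ← hu] at r4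
      -- `OE ≤ (6 / 5) Λ (2 P + 4 / 2 ^ q)`
      have s1 : OE ≤ 6 / 5 * Λ * (2 * P + 4 / 2 ^ q) := by
        have t2 : 0 ≤ 2 * P + 4 / 2 ^ q := by positivity
        have t3 : Real.exp θ * (A0 * (n : ℝ) ^ 2) ^ θ ≤ 6 / 5 * Λ :=
          mul_le_mul hexpθ hX hX0 (by norm_num)
        exact r2.trans (mul_le_mul_of_nonneg_right t3 t2)
      -- `Λ u P ≤ 1 / 56`
      have s2 : Λ * (u * P) ≤ 1 / 56 := by
        have t1 := mul_le_mul_of_nonneg_left r3 hΛ0.le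
        have t2 : Λ * (1 / (56 * Λ)) = 1 / 56 := by
          field_simp
        linarith
      -- `Λ u 4 / 2 ^ q ≤ 1 / 28`
      have s3 : Λ * (u * (4 / 2 ^ q)) ≤ 1 / 28 := by
        have t1 : Λ * u ≤ R * Λ := by
          have := mul_le_mul_of_nonneg_left hR hΛ0.le
          linarith
        have t2 : Λ * (u * (4 / 2 ^ q)) = 4 * (Λ * u) / 2 ^ q := by ring
        rw [t2, div_le_iff₀ h2q]
        linarith
      have s4 : OE * S * (4 * Real.exp 1) ≤ 1 := by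
        have t1 : OE * S ≤ 6 / 5 * Λ * (2 * P + 4 / 2 ^ q) * u :=
          mul_le_mul s1 r4 hS0 (by positivity)
        have t2 : 6 / 5 * Λ * (2 * P + 4 / 2 ^ q) * u =
            6 / 5 * (2 * (Λ * (u * P)) + Λ * (u * (4 / 2 ^ q))) := by ring
        have t3 : OE * S ≤ 6 / 5 * (2 * (1 / 56) + 1 / 28) := by
          rw [t2] at t1
          linarith
        have t4 := mul_le_mul_of_nonneg_right t3 (by positivity : (0 : ℝ) ≤ 4 * Real.exp 1)
        refine t4.trans ?_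
        nlinarith
      have s5 : 0 ≤ OE * S * (4 * Real.exp 1) := by positivity
      refine r1.trans ?_
      calc Real.exp (θ * (Y + Real.log 2)) * (1 + OE * S * (4 * Real.exp 1))
          ≤ Real.exp 1 * (6 / 5) * (1 + OE * S * (4 * Real.exp 1)) :=
            mul_le_mul_of_nonneg_right hexpY (by linarith)
        _ ≤ Real.exp 1 * (6 / 5) * 2 := mul_le_mul_of_nonneg_left (by linarith) (by positivity)
        _ ≤ 4 * Real.exp 1 := by linarith
  have hfin := key n le_rfl z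
  refine le_of_eq_of_le ?_ hfin
  refine integral_congr_ae (Filter.Eventually.of_forall fun η => ?_)
  show Real.exp (Mh μ s v h w z n η / Y) = Real.exp (θ * Mh μ s v h w z n η)
  congr 1
  rw [hθ]
  ring

/-- THEOREM B. PROOF. `hit_prob` with `A = C E`, `r` large; `core` with `κ = c1 E`. -/
theorem thmB (em : Pool.Agent.W_7d29a1_h47.EM μ) (s : ℝ) {C c1 c0 : ℝ} (hC : 1 ≤ C) (hc : 0 < c1) (hc0 : 0 < c0) :
    ∃ C' K : ℝ, 1 ≤ C' ∧ 1 ≤ K ∧ ∀ (n : ℕ) (v w h0 h1 E : ℝ), 1 ≤ n → 0 ≤ v → v ≤ 1 → 1 ≤ w → w ≤ n →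
      |h0| ≤ 1 → |h1| ≤ 1 → K ≤ E → c0 * (1 + Real.log n) ≤ E →
      HitV μ (s + h0) v w n (C * E) → HitV μ (s + h1) v w n (C * E) →
      (n : ℝ) * kap μ s v h0 ≤ C * E → (n : ℝ) * kap μ s v h1 ≤ C * E →
      ∃ Y : ℝ, 1 ≤ Y ∧ Y ≤ C' * E ∧ ∀ h z : ℝ, h0 ≤ h → h ≤ h1 → c1 * E ≤ (h - h0) * w → c1 * E ≤ (h1 - h) * w →
        ∫ η, Real.exp (Mh μ s v h w z n η / Y) ∂(law μ) ≤ 4 * Real.exp 1 := by
  obtain ⟨p0, hp0, hcore⟩ := core em s hc0
  obtain ⟨g, hg⟩ : ∃ g : ℝ, g = 5 + 2 / c1 := ⟨_, rfl⟩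
  have h2c : 0 < 2 / c1 := by positivity
  have hg5 : 5 ≤ g := by rw [hg]; linarith
  obtain ⟨r, hr⟩ : ∃ r : ℕ, max (g * (48 * C) / p0) 1 ≤ r := exists_nat_ge _
  have hr1 : 1 ≤ r := by
    have h1 : (1 : ℝ) ≤ r := (le_max_right _ _).trans hr
    exact_mod_cast h1
  have hrg : g * (48 * C) ≤ r * p0 := by
    have h1 : g * (48 * C) / p0 ≤ r := (le_max_left _ _).trans hr
    rwa [div_le_iff₀ hp0] at h1
  have h2r : (1 : ℝ) ≤ 2 ^ r := one_le_pow₀ (by norm_num)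
  obtain ⟨K, hK6, hcoreK⟩ := hcore (g * (3 * (2 ^ r * C)))
  refine ⟨3 * 2 ^ r * C, K, by nlinarith, by linarith, ?_⟩
  intro n v w a b E hn hv0 hv1 hw1 hwn ha hb hKE hKE2 H0 H1 d0 d1
  have hE : 1 ≤ E := by linarith
  have hE0 : 0 < E := by linarith
  have hCEE : E ≤ C * E := by nlinarith
  have hCE : 1 ≤ C * E := by linarith
  obtain ⟨Y, hY1, hY2, hP⟩ := hit_prob hv0 hv1 hCE hr1 H0 H1 d0 d1
  have hYE : E ≤ Y := by linarith
  have hY0 : 0 < Y := by linarith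
  refine ⟨Y, by linarith, by linarith, ?_⟩
  intro h z hl0 hl1 hk0 hk1
  have hκ : 0 < c1 * E := by positivity
  have N : Nm v w a h b (c1 * E) := ⟨hv0, hv1, hw1, ha, hb, hl0, hl1, hκ.le, hk0, hk1⟩
  -- the ratio `y = Y / E`
  obtain ⟨y, hy⟩ : ∃ y : ℝ, y = Y / E := ⟨_, rfl⟩
  have hy0 : 0 < y := by rw [hy]; positivity
  have hy1 : 1 ≤ y := by
    rw [hy, le_div_iff₀ hE0]
    linarith
  have hyE : y * E = Y := by
    rw [hy]
    exact div_mul_cancel₀ _ hE0.ne'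
  have hyr : y ≤ 3 * (2 ^ r * C) := by
    rw [hy, div_le_iff₀ hE0]
    linarith
  have hr0 : (0 : ℝ) < r := by
    have : (1 : ℝ) ≤ r := by exact_mod_cast hr1
    linarith
  have hu : 5 + 2 * (Y / (c1 * E)) ≤ g * y := by
    have e1 : 2 * (Y / (c1 * E)) = 2 / c1 * y := by
      rw [hy]
      field_simp
    rw [e1, hg]
    nlinarith
  refine hcoreK n v w a h b (c1 * E) Y hn hwn N hκ (hKE.trans hYE) (hKE2.trans hYE) ?_ ?_ z
  · exact hu.trans (mul_le_mul_of_nonneg_left hyr (by linarith))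
  · intro m z' hm
    have r3 := hP m z' hm
    obtain ⟨P, hPdef⟩ : ∃ P : ℝ, P = (law μ).real {η | ∃ l ∈ Finset.range (m + 1), Ht μ s v w a b Y z' m l η} := ⟨_, rfl⟩
    have hP0 : 0 ≤ P := by rw [hPdef]; exact measureReal_nonneg
    rw [← hPdef] at r3 ⊢
    have t1 : y * P ≤ 48 * C / r := by
      have t2 : Y * P = (y * P) * E := by rw [← hyE]; ring
      have t3 : 48 * (C * E) / r = (48 * C / r) * E := by ring
      rw [t2, t3] at r3
      exact le_of_mul_le_mul_right r3 hE0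
    have t4 : g * (48 * C / r) ≤ p0 := by
      have t5 : g * (48 * C / r) = g * (48 * C) / r := by ring
      rw [t5, div_le_iff₀ hr0]
      linarith
    have t6 : (5 + 2 * (Y / (c1 * E))) * P ≤ g * y * P := mul_le_mul_of_nonneg_right hu hP0
    have t7 : g * (y * P) ≤ g * (48 * C / r) := mul_le_mul_of_nonneg_left t1 (by linarith)
    linarith

end Pool.Agent.W_7d29a1_L
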