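import Pool.Agent.W_7d29a1_L.LsA2

/-!
L*: the restart in the mean (compare `W_7d29a1_F/LuckE.lean`, `restart`).
-/

namespace Pool.Agent.W_7d29a1_L

open MeasureTheory ProbabilityTheory Filter Topology
open Pool.Agent.W_7d29a1_F

variable {μ : Measure ℝ} {s v w h0 h h1 κ Y z : ℝ} {n : ℕ}

theorem meas_Ht (l : ℕ) : MeasurableSet {η | Ht μ s v w h0 h1 Y z n l η} := by
  have e : {η | Ht μ s v w h0 h1 Y z n l η} = ⋃ q ∈ Bx v w z n, {η | q.1.1 + q.2 = l ∧
      (Y ≤ T μ s v h0 η ((q.1.1 : ℤ), q.1.2) q.2 ∨ Y ≤ T μ s v h1 η ((q.1.1 : ℤ), q.1.2) q.2)} := by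
    ext η
    simp only [Ht, Set.mem_ofPred_eq, Set.mem_iUnion, exists_prop]
  rw [e]
  refine Finset.measurableSet_biUnion _ fun q _ => (MeasurableSet.const _).inter ?_
  exact (measurableSet_le measurable_const (Sub_T _ _).1).union (measurableSet_le measurable_const (Sub_T _ _).1)

/-- PROOF. `meas_Fi`. -/
theorem meas_Fh {l : ℕ} (hl : l ∈ Finset.range (n + 1)) : MeasurableSet {η | Fh μ s v w h0 h1 Y z n l η} :=
  meas_Fi (Finset.range (n + 1)) (id : ℕ → ℕ) (p := fun l η => Ht μ s v w h0 h1 Y z n l η) (fun i _ => meas_Ht i) hl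

/-- PROOF. `dep_Fi`, `T_dep_rows`, `mem_Bx`. -/
theorem Fh_dep (N : Nm v w h0 h h1 κ) {l : ℕ} (hl : l ∈ Finset.range (n + 1)) :
    DependsOn (fun η => io (Fh μ s v w h0 h1 Y z n l η)) (rows 0 l) := by
  have key : ∀ l' : ℕ, l' ≤ l → ∀ η η' : Env, (∀ x ∈ rows 0 l, η x = η' x) →
      Ht μ s v w h0 h1 Y z n l' η → Ht μ s v w h0 h1 Y z n l' η' := by
    rintro l' hl' η η' hη ⟨q, hq, hql, hh⟩
    have hT : ∀ h' : ℝ, T μ s v h' η ((q.1.1 : ℤ), q.1.2) q.2 = T μ s v h' η' ((q.1.1 : ℤ), q.1.2) q.2 := by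
      intro h'
      refine T_dep_rows (μ := μ) (s := s) (v := v) (h := h') _ _ fun x hx => hη x (rows_mono ?_ ?_ hx)
      · exact Int.natCast_nonneg _
      · show (q.1.1 : ℤ) + q.2 ≤ (l : ℤ)
        have : q.1.1 + q.2 ≤ l := by omega
        exact_mod_cast this
    refine ⟨q, hq, hql, ?_⟩
    rw [← hT, ← hT]
    exact hh
  refine dep_Fi (Finset.range (n + 1)) (id : ℕ → ℕ) (p := fun l η => Ht μ s v w h0 h1 Y z n l η) hl fun j _ hj η η' hη => ?_
  exact ⟨key j hj η η' hη, key j hj η' η fun x hx => (hη x hx).symm⟩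

private theorem LsA3_io_mul_int {p : Env → Prop} (hp : MeasurableSet {η | p η}) {g : Env → ℝ}
    (hg : Integrable g (law μ)) : Integrable (fun η => io (p η) * g η) (law μ) := by
  refine hg.mono ((measurable_io hp).aestronglyMeasurable.mul hg.aestronglyMeasurable) (Filter.Eventually.of_forall fun η => ?_)
  rw [norm_mul, Real.norm_eq_abs, abs_of_nonneg (io_nonneg _)]
  have h1 := io_le_one (p η)
  have h2 := norm_nonneg (g η)
  nlinarith

variable [IsProbabilityMeasure μ]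

/-- PROOF. Integrate `exp_Mh_le`; for `l = 0` the indicator is `0` (`Ht_zero`); for `l ≥ 1`:
`io (Fh ..) * exp (θ (Ov (l - 1) + 1))` depends on `rows 0 l`, `Mh .. (n - l) (sh (l, 0) η)` on `rows l ..`
(`integral_indep`, `rows_disj`), `integral_exp_Mh_sh`, the hypothesis `hB` for `n - l < n`; integrability: `Sub.exp_int`,
bounded indicator. -/
theorem restart (em : Pool.Agent.W_7d29a1_h47.EM μ) (N : Nm v w h0 h h1 κ) (hY : 0 < Y) {θ B : ℝ} (hθ : 0 ≤ θ)
    (hB0 : 0 ≤ B) (hB : ∀ n' < n, ∀ z' : ℝ, ∫ η, Real.exp (θ * Mh μ s v h w z' n' η) ∂(law μ) ≤ B) :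
    ∫ η, Real.exp (θ * Mh μ s v h w z n η) ∂(law μ) ≤ Real.exp (θ * (Y + Real.log 2)) * (1 +
      (∫ η, ∑ l ∈ Finset.range (n + 1), io (Fh μ s v w h0 h1 Y z n l η) *
        Real.exp (θ * (Ov μ s w z n ((l : ℤ) - 1) η + 1)) ∂(law μ)) *
      (∑ j ∈ Finset.Icc (-((n : ℤ) + 2)) ((n : ℤ) + 2), Real.exp (-(θ * far κ j))) * B) := by
  obtain ⟨J, hJ⟩ : ∃ J : Finset ℤ, J = Finset.Icc (-((n : ℤ) + 2)) ((n : ℤ) + 2) := ⟨_, rfl⟩
  obtain ⟨A, hA⟩ : ∃ A : ℕ → Env → ℝ, A = fun (l : ℕ) (η : Env) => io (Fh μ s v w h0 h1 Y z n l η) *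
    Real.exp (θ * (Ov μ s w z n ((l : ℤ) - 1) η + 1)) := ⟨_, rfl⟩
  obtain ⟨Bq, hBq⟩ : ∃ Bq : ℕ → Env → ℝ, Bq = fun (l : ℕ) (η : Env) => ∑ j ∈ J, Real.exp (-(θ * far κ j)) *
    Real.exp (θ * Mh μ s v h w (z + j * w + v * l) (n - l) (sh ((l : ℤ), 0) η)) := ⟨_, rfl⟩
  have hSO : ∀ l : ℕ, Sub fun η => θ * (Ov μ s w z n ((l : ℤ) - 1) η + 1) := fun l =>
    ((Sub_Ov _).add (Sub.const 1)).const_mul θ
  have hSM : ∀ (z' : ℝ) (m : ℕ) (a : Pt), Sub fun η => θ * Mh μ s v h w z' m (sh a η) := fun z' m a =>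
    (Sub_Mh.comp_sh a).const_mul θ
  have hAm : ∀ l ∈ Finset.range (n + 1), Measurable (A l) := by
    intro l hl
    rw [hA]
    exact (measurable_io (meas_Fh hl)).mul (Real.measurable_exp.comp (hSO l).1)
  have hBm : ∀ l, Measurable (Bq l) := by
    intro l
    rw [hBq]
    exact Finset.measurable_fun_sum _ fun j _ => (Real.measurable_exp.comp (hSM _ _ _).1).const_mul _
  have hAi : ∀ l ∈ Finset.range (n + 1), Integrable (A l) (law μ) := by
    intro l hl
    rw [hA]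
    exact LsA3_io_mul_int (meas_Fh hl) ((hSO l).exp_int em)
  have hABi : ∀ l ∈ Finset.range (n + 1), Integrable (fun η => A l η * Bq l η) (law μ) := by
    intro l hl
    have h3 : Integrable (fun η => io (Fh μ s v w h0 h1 Y z n l η) * ∑ j ∈ J, Real.exp (-(θ * far κ j)) *
        Real.exp (θ * (Ov μ s w z n ((l : ℤ) - 1) η + 1) +
          θ * Mh μ s v h w (z + j * w + v * l) (n - l) (sh ((l : ℤ), 0) η))) (law μ) := by
      refine LsA3_io_mul_int (meas_Fh hl) (integrable_finsetSum _ fun j _ => ?_)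
      exact (((hSO l).add (hSM _ _ _)).exp_int em).const_mul _
    refine h3.congr (Filter.Eventually.of_forall fun η => ?_)
    rw [hA, hBq]
    beta_reduce
    rw [mul_assoc (io _) (Real.exp _) _]
    congr 1
    rw [Finset.mul_sum]
    refine Finset.sum_congr rfl fun j _ => ?_
    rw [Real.exp_add]
    ring
  have hBI : ∀ l, 1 ≤ l → l ≤ n → ∫ η, Bq l η ∂(law μ) ≤ (∑ j ∈ J, Real.exp (-(θ * far κ j))) * B := by
    intro l hl1 hl2
    have e : ∫ η, Bq l η ∂(law μ) = ∑ j ∈ J, Real.exp (-(θ * far κ j)) *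
        ∫ η, Real.exp (θ * Mh μ s v h w (z + j * w + v * l) (n - l) η) ∂(law μ) := by
      rw [hBq, integral_finsetSum _ fun j _ => ((hSM _ _ _).exp_int em).const_mul _]
      refine Finset.sum_congr rfl fun j _ => ?_
      rw [integral_const_mul, integral_exp_Mh_sh]
    rw [e, Finset.sum_mul]
    refine Finset.sum_le_sum fun j _ => mul_le_mul_of_nonneg_left (hB _ (by omega) _) (Real.exp_pos _).le
  -- dependence
  have hAd : ∀ l ∈ Finset.range (n + 1), 1 ≤ l → DependsOn (A l) (rows 0 (l : ℤ)) := by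
    intro l hl hl1 η η' hη
    have e1 : io (Fh μ s v w h0 h1 Y z n l η) = io (Fh μ s v w h0 h1 Y z n l η') := Fh_dep N hl hη
    have e2 : Ov μ s w z n ((l : ℤ) - 1) η = Ov μ s w z n ((l : ℤ) - 1) η' := by
      refine Ov_dep (μ := μ) (s := s) (w := w) (z := z) (n := n) _ fun x hx => hη x (rows_mono ?_ ?_ hx)
      · omega
      · omega
    rw [hA]
    show io _ * Real.exp _ = io _ * Real.exp _
    rw [e1, e2]
  have hBd : ∀ l, l ≤ n → DependsOn (Bq l) (rows (l : ℤ) (n : ℤ)) := by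
    intro l hl η η' hη
    rw [hBq]
    beta_reduce
    refine Finset.sum_congr rfl fun j _ => ?_
    have e1 : Mh μ s v h w (z + j * w + v * l) (n - l) (sh ((l : ℤ), 0) η) =
        Mh μ s v h w (z + j * w + v * l) (n - l) (sh ((l : ℤ), 0) η') := by
      refine Mh_dep (μ := μ) (s := s) (h := h) (w := w) (z := z + j * w + v * l) (n := n - l) N.v0 N.v1 fun x hx => ?_
      show η (x + ((l : ℤ), 0)) = η' (x + ((l : ℤ), 0))
      refine hη _ ⟨?_, ?_⟩
      · have := hx.1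
        show (l : ℤ) < x.1 + l
        omega
      · have := hx.2
        show x.1 + l ≤ (n : ℤ)
        omega
    rw [e1]
  have hind : ∀ l ∈ Finset.range (n + 1), ∫ η, A l η * Bq l η ∂(law μ) ≤
      (∫ η, A l η ∂(law μ)) * ((∑ j ∈ J, Real.exp (-(θ * far κ j))) * B) := by
    intro l hl
    have hln : l ≤ n := by
      have := Finset.mem_range.1 hl
      omega
    rcases Nat.eq_zero_or_pos l with h0' | h0'
    · have hz : ∀ η, A l η = 0 := by
        intro η
        rw [hA]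
        show io _ * _ = 0
        rw [io_not, zero_mul]
        intro hF
        rw [h0'] at hF
        exact Ht_zero hY η hF.1
      have e1 : (fun η => A l η * Bq l η) = fun _ => 0 := by
        funext η
        rw [hz, zero_mul]
      have e2 : (fun η => A l η) = fun _ => 0 := by
        funext η
        rw [hz]
      rw [e1, e2, integral_zero, zero_mul]
    · rw [integral_indep (hAm l hl) (hBm l) (hAd l hl h0') (hBd l hln) (rows_disj le_rfl)]
      refine mul_le_mul_of_nonneg_left (hBI l h0' hln) (integral_nonneg fun η => ?_)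
      rw [hA]
      exact mul_nonneg (io_nonneg _) (Real.exp_pos _).le
  have hsum : ∫ η, ∑ l ∈ Finset.range (n + 1), A l η ∂(law μ) = ∑ l ∈ Finset.range (n + 1), ∫ η, A l η ∂(law μ) :=
    integral_finsetSum _ hAi
  have hgoal : ∫ η, ∑ l ∈ Finset.range (n + 1), io (Fh μ s v w h0 h1 Y z n l η) *
      Real.exp (θ * (Ov μ s w z n ((l : ℤ) - 1) η + 1)) ∂(law μ) =
      ∫ η, ∑ l ∈ Finset.range (n + 1), A l η ∂(law μ) := by rw [hA]
  rw [hgoal, hsum, ← hJ]
  have hfin : ∫ η, Real.exp (θ * (Y + Real.log 2)) * (1 + ∑ l ∈ Finset.range (n + 1), A l η * Bq l η) ∂(law μ) ≤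
      Real.exp (θ * (Y + Real.log 2)) * (1 + (∑ l ∈ Finset.range (n + 1), ∫ η, A l η ∂(law μ)) *
        (∑ j ∈ J, Real.exp (-(θ * far κ j))) * B) := by
    rw [integral_const_mul, integral_add (integrable_const _) (integrable_finsetSum _ hABi), integral_const, probReal_univ,
      one_smul, integral_finsetSum _ hABi]
    refine mul_le_mul_of_nonneg_left ?_ (Real.exp_pos _).le
    have h5 := Finset.sum_le_sum hind
    rw [← Finset.sum_mul] at h5
    linarith
  refine le_trans (integral_mono ((Sub_Mh.const_mul θ).exp_int em) ?_ fun η => ?_) hfin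
  · exact ((integrable_const _).add (integrable_finsetSum _ hABi)).const_mul _
  · have h5 := exp_Mh_le (μ := μ) (s := s) (z := z) (n := n) N hY hθ η
    rw [hA, hBq, hJ]
    exact h5

end Pool.Agent.W_7d29a1_L
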